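import Pool.Agent.TH658.Sd.Gen
import Pool.Agent.H30R2.PS.Bad

set_option autoImplicit false
set_option linter.unusedSectionVars false

/-! The wirings and the counting of the bad ones. -/

namespace Pool.Agent.TH658.Sd

open Finset Pool.Agent.H30R2.PS Pool.Agent.TH658.Eq

variable {N : ℕ}

/-- the places of the signs: two in each row -/
abbrev SL (N : ℕ) := Fin N × Bool

/-- sign changes of the rows, of the columns and of the variables -/
abbrev GA (N : ℕ) := (Fin N → ZMod 2) × (Fin N → ZMod 2) × (Fin N → ZMod 2)

/-- wirings -/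
abbrev WR (N : ℕ) := Equiv.Perm (Fin N) × Equiv.Perm (Fin N)

variable [NeZero N]

/-- the column of a place -/
def cl (s : SL N) : Fin N := if s.2 then s.1 else s.1 + 1

/-- the variable of a place -/
def vr (w : WR N) (s : SL N) : Fin N := if s.2 then w.2.symm s.1 else w.1.symm s.1

/-- the effect of the sign changes -/
def BW (w : WR N) : GA N →ₗ[ZMod 2] (SL N → ZMod 2) where
  toFun h := fun s => h.1 s.1 + h.2.1 (cl s) + h.2.2 (vr w s)
  map_add' h h' := by
    funext s
    show (h.1 s.1 + h'.1 s.1) + (h.2.1 (cl s) + h'.2.1 (cl s)) + (h.2.2 (vr w s) + h'.2.2 (vr w s))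
      = (h.1 s.1 + h.2.1 (cl s) + h.2.2 (vr w s)) + (h'.1 s.1 + h'.2.1 (cl s) + h'.2.2 (vr w s))
    ring
  map_smul' c h := by
    funext s
    show c * h.1 s.1 + c * h.2.1 (cl s) + c * h.2.2 (vr w s) =
      c * (h.1 s.1 + h.2.1 (cl s) + h.2.2 (vr w s))
    ring

section perms

variable {n : ℕ}

/-- the permutations with `f ∘ π = g` -/
theorem card_perm_mul (f g : Fin n → ZMod 2) :
    (univ.filter fun π : Equiv.Perm (Fin n) => ∀ i, f (π i) = g i).card * n.choose (wt f) ≤
      Fintype.card (Equiv.Perm (Fin n)) := by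
  classical
  by_cases hfg : wt g = wt f
  · have hsame : ∀ g' : Fin n → ZMod 2, wt g' = wt f →
        (univ.filter fun π : Equiv.Perm (Fin n) => ∀ i, f (π i) = g i).card ≤
        (univ.filter fun π : Equiv.Perm (Fin n) => ∀ i, f (π i) = g' i).card := by
      intro g' hg'
      obtain ⟨σ, hσ⟩ := exists_perm_of_wt g' g (hg'.trans hfg.symm)
      refine Finset.card_le_card_of_injOn (fun π => π * σ) ?_ ?_
      · intro π hπ
        have h1 := (Finset.mem_filter.mp (Finset.mem_coe.mp hπ)).2
        refine Finset.mem_coe.mpr (Finset.mem_filter.mpr ⟨mem_univ _, fun i => ?_⟩)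
        show f (π (σ i)) = g' i
        rw [h1, hσ]
      · intro π _ π' _ h
        exact mul_right_cancel h
    have hdisj : (univ.filter fun x : Fin n → ZMod 2 => wt x = wt f).card *
        (univ.filter fun π : Equiv.Perm (Fin n) => ∀ i, f (π i) = g i).card ≤
        Fintype.card (Equiv.Perm (Fin n)) := by
      calc (univ.filter fun x : Fin n → ZMod 2 => wt x = wt f).card *
          (univ.filter fun π : Equiv.Perm (Fin n) => ∀ i, f (π i) = g i).card
          = ∑ _x ∈ univ.filter (fun x : Fin n → ZMod 2 => wt x = wt f),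
            (univ.filter fun π : Equiv.Perm (Fin n) => ∀ i, f (π i) = g i).card := by
              rw [Finset.sum_const, smul_eq_mul]
        _ ≤ ∑ x ∈ univ.filter (fun x : Fin n → ZMod 2 => wt x = wt f),
            (univ.filter fun π : Equiv.Perm (Fin n) => ∀ i, f (π i) = x i).card :=
              Finset.sum_le_sum fun x hx => hsame x (Finset.mem_filter.mp hx).2
        _ = ((univ.filter fun x : Fin n → ZMod 2 => wt x = wt f).biUnion fun x =>
            univ.filter fun π : Equiv.Perm (Fin n) => ∀ i, f (π i) = x i).card := by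
              rw [Finset.card_biUnion]
              intro x _ y _ hxy
              rw [Function.onFun, Finset.disjoint_left]
              intro π h1 h2
              refine hxy (funext fun i => ?_)
              rw [← (Finset.mem_filter.mp h1).2 i, (Finset.mem_filter.mp h2).2 i]
        _ ≤ _ := by
              rw [← Finset.card_univ]
              exact Finset.card_le_card (Finset.subset_univ _)
    rw [card_wt, Fintype.card_fin] at hdisj
    rw [mul_comm]
    exact hdisj
  · have h0 : (univ.filter fun π : Equiv.Perm (Fin n) => ∀ i, f (π i) = g i) = ∅ := by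
      rw [Finset.filter_eq_empty_iff]
      intro π _ h
      refine hfg ?_
      unfold wt
      refine Finset.card_bij (fun i _ => π i) ?_ ?_ ?_
      · intro i hi
        rw [Finset.mem_filter] at hi ⊢
        refine ⟨mem_univ _, ?_⟩
        rw [h]
        exact hi.2
      · intro i _ j _ hij
        exact π.injective hij
      · intro j hj
        rw [Finset.mem_filter] at hj
        refine ⟨π.symm j, ?_, π.apply_symm_apply j⟩
        rw [Finset.mem_filter]
        refine ⟨mem_univ _, ?_⟩
        rw [← h, π.apply_symm_apply]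
        exact hj.2
    rw [h0, Finset.card_empty, zero_mul]
    exact Nat.zero_le _

theorem choose_pow {p τ : ℕ} (h1 : τ < 2 * p) (h2 : 4 * p ≤ n) :
    2 ^ (τ + 1) ≤ n.choose p := by
  have h3 := choose_ge p n (by omega)
  have hp : 0 < p := by omega
  have h4 : (4 : ℝ) ≤ (n : ℝ) / p := by
    rw [le_div_iff₀ (by exact_mod_cast hp)]
    exact_mod_cast h2
  have h5 : (4 : ℝ) ^ p ≤ (n.choose p : ℝ) :=
    (pow_le_pow_left₀ (by norm_num) h4 p).trans h3
  have h6 : 4 ^ p ≤ n.choose p := by exact_mod_cast h5
  refine le_trans ?_ h6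
  have h7 : (4 : ℕ) ^ p = 2 ^ (2 * p) := by
    rw [pow_mul]
    norm_num
  rw [h7]
  exact Nat.pow_le_pow_right (by norm_num) (by omega)

end perms

/-- the weight is the sum of the weights of the two halves -/
theorem wt_halves (l : SL N → ZMod 2) :
    wt l = wt (fun i => l (i, false)) + wt (fun i => l (i, true)) := by
  classical
  unfold wt
  rw [Finset.card_filter, Finset.card_filter, Finset.card_filter, Fintype.sum_prod_type,
    ← Finset.sum_add_distrib]
  refine Finset.sum_congr rfl fun i _ => ?_
  rw [Fintype.sum_bool, add_comm]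

/-- few wirings match the sums at the variables -/
theorem card_vars (l : SL N → ZMod 2) (c : Fin N → ZMod 2) (τ : ℕ) (hl : τ < wt l)
    (hl' : wt l ≤ 2 * τ) (hτ : 8 * τ ≤ N) :
    (univ.filter fun w : WR N => ∀ v, l (w.1 v, false) + l (w.2 v, true) = c v).card *
      2 ^ (τ + 1) ≤ Fintype.card (WR N) := by
  classical
  set p := wt (fun i => l (i, false)) with hp
  set q := wt (fun i => l (i, true)) with hq
  have hpq := wt_halves l
  rw [← hp, ← hq] at hpq
  set P := Fintype.card (Equiv.Perm (Fin N)) with hP
  have hW : Fintype.card (WR N) = P * P := Fintype.card_prod _ _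
  have hz : ∀ a b : ZMod 2, a + b + b = a := by decide
  have hz' : ∀ a b : ZMod 2, b + a + b = a := by decide
  rw [hW]
  by_cases hcase : q ≤ p
  · -- fix the second permutation
    have h1 : (univ.filter fun w : WR N => ∀ v, l (w.1 v, false) + l (w.2 v, true) = c v).card ≤
        ∑ π' : Equiv.Perm (Fin N), (univ.filter fun π : Equiv.Perm (Fin N) =>
          ∀ v, l (π v, false) = c v + l (π' v, true)).card := by
      rw [← Finset.card_sigma]
      refine Finset.card_le_card_of_injOn (fun w => ⟨w.2, w.1⟩) ?_ ?_
      · intro w hw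
        have h2 := (Finset.mem_filter.mp (Finset.mem_coe.mp hw)).2
        refine Finset.mem_coe.mpr (Finset.mem_sigma.mpr ⟨mem_univ _, Finset.mem_filter.mpr
          ⟨mem_univ _, fun v => ?_⟩⟩)
        show l (w.1 v, false) = c v + l (w.2 v, true)
        rw [← h2 v, hz]
      · rintro ⟨a, b⟩ _ ⟨a', b'⟩ _ h
        have h3 : b = b' := (Sigma.mk.inj_iff.mp h).1
        have h4 : a = a' := eq_of_heq (Sigma.mk.inj_iff.mp h).2
        rw [h3, h4]
    refine (Nat.mul_le_mul_right _ h1).trans ?_
    rw [Finset.sum_mul]
    have h5 : ∀ π' : Equiv.Perm (Fin N), (univ.filter fun π : Equiv.Perm (Fin N) =>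
          ∀ v, l (π v, false) = c v + l (π' v, true)).card * 2 ^ (τ + 1) ≤ P := by
      intro π'
      have h6 := card_perm_mul (fun i => l (i, false)) (fun v => c v + l (π' v, true))
      refine (Nat.mul_le_mul_left _ (choose_pow (n := N) (p := p) (τ := τ) ?_ ?_)).trans h6
      · omega
      · omega
    calc ∑ π' : Equiv.Perm (Fin N), (univ.filter fun π : Equiv.Perm (Fin N) =>
          ∀ v, l (π v, false) = c v + l (π' v, true)).card * 2 ^ (τ + 1)
        ≤ ∑ _π' : Equiv.Perm (Fin N), P := Finset.sum_le_sum fun π' _ => h5 π'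
      _ = P * P := by rw [Finset.sum_const, Finset.card_univ, smul_eq_mul]
  · have h1 : (univ.filter fun w : WR N => ∀ v, l (w.1 v, false) + l (w.2 v, true) = c v).card ≤
        ∑ π : Equiv.Perm (Fin N), (univ.filter fun π' : Equiv.Perm (Fin N) =>
          ∀ v, l (π' v, true) = l (π v, false) + c v).card := by
      rw [← Finset.card_sigma]
      refine Finset.card_le_card_of_injOn (fun w => ⟨w.1, w.2⟩) ?_ ?_
      · intro w hw
        have h2 := (Finset.mem_filter.mp (Finset.mem_coe.mp hw)).2
        refine Finset.mem_coe.mpr (Finset.mem_sigma.mpr ⟨mem_univ _, Finset.mem_filter.mpr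
          ⟨mem_univ _, fun v => ?_⟩⟩)
        show l (w.2 v, true) = l (w.1 v, false) + c v
        rw [← h2 v, ← add_assoc, zmod2_add_self, zero_add]
      · rintro ⟨a, b⟩ _ ⟨a', b'⟩ _ h
        have h3 : a = a' := (Sigma.mk.inj_iff.mp h).1
        have h4 : b = b' := eq_of_heq (Sigma.mk.inj_iff.mp h).2
        rw [h3, h4]
    refine (Nat.mul_le_mul_right _ h1).trans ?_
    rw [Finset.sum_mul]
    have h5 : ∀ π : Equiv.Perm (Fin N), (univ.filter fun π' : Equiv.Perm (Fin N) =>
          ∀ v, l (π' v, true) = l (π v, false) + c v).card * 2 ^ (τ + 1) ≤ P := by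
      intro π
      have h6 := card_perm_mul (fun i => l (i, true)) (fun v => l (π v, false) + c v)
      refine (Nat.mul_le_mul_left _ (choose_pow (n := N) (p := q) (τ := τ) ?_ ?_)).trans h6
      · omega
      · omega
    calc ∑ π : Equiv.Perm (Fin N), (univ.filter fun π' : Equiv.Perm (Fin N) =>
          ∀ v, l (π' v, true) = l (π v, false) + c v).card * 2 ^ (τ + 1)
        ≤ ∑ _π : Equiv.Perm (Fin N), P := Finset.sum_le_sum fun π _ => h5 π
      _ = P * P := by rw [Finset.sum_const, Finset.card_univ, smul_eq_mul]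

end Pool.Agent.TH658.Sd
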