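import Pool.Agent.TH658.Sd.Main

set_option autoImplicit false
set_option linter.unusedSectionVars false

/-! A random number for each variable. -/

namespace Pool.Agent.TH658.Sd

open Finset Pool.Agent.H30R2.PS Pool.Agent.TH658.Eq

variable {n m : ℕ}

/-- The sign changes act on tuples with a number for each variable. -/
def coinFlip (h : Flips n m) (x : Tup n m × (Fin m → ℤ)) : Tup n m × (Fin m → ℤ) :=
  (flip h x.1, fun v => (if h.2.2 v = 0 then 1 else -1) * x.2 v)

/-- The span of the functions of a tuple and numbers `c v` which depend only on the entries in at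
most `d` slices (rows, columns or variables) and on the numbers `c v` for the variables among
them. -/
def LocalCoin (K : Type) [Field K] (n m d : ℕ) : Submodule K (Tup n m × (Fin m → ℤ) → K) :=
  Submodule.span K {g | ∃ (R C : Finset (Fin n)) (V : Finset (Fin m)),
    R.card + C.card + V.card ≤ d ∧ ∀ x y : Tup n m × (Fin m → ℤ),
      (∀ v i j, i ∈ R ∨ j ∈ C ∨ v ∈ V → x.1 v i j = y.1 v i j) → (∀ v ∈ V, x.2 v = y.2 v) →
      g x = g y}

/-- the value of the symbolic matrix -/
def valM (x : Tup n m × (Fin m → ℤ)) : Matrix (Fin n) (Fin n) ℚ :=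
  Matrix.of fun i j => ∑ v, ((x.1 v i j : ℤ) : ℚ) * ((x.2 v : ℤ) : ℚ)

/-- the matrices of the gate -/
def coinM (x : Tup n m × (Fin m → ℤ)) (b : Bool) : Matrix (Fin (n + n)) (Fin (n + n)) ℚ :=
  Matrix.reindex finSumFinEquiv finSumFinEquiv
    (if b then Matrix.fromBlocks 0 (valM x) 0 0 else Matrix.fromBlocks 1 0 0 0)

/-- the value of the gate -/
def coinV (x : Tup n m × (Fin m → ℤ)) : Prop :=
  ∃ Z : Matrix (Fin (n + n)) (Fin (n + n)) ℚ, coinM x true * Z = coinM x false

theorem coinV_iff (x : Tup n m × (Fin m → ℤ)) : coinV x ↔ (valM x).det ≠ 0 := by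
  constructor
  · rintro ⟨Z, hZ⟩
    have h1 : Matrix.fromBlocks 0 (valM x) 0 0 * Z.submatrix finSumFinEquiv finSumFinEquiv =
        (Matrix.fromBlocks 1 0 0 0 : Matrix (Fin n ⊕ Fin n) (Fin n ⊕ Fin n) ℚ) := by
      have h2 := congrArg (fun A => A.submatrix finSumFinEquiv finSumFinEquiv) hZ
      refine Matrix.ext fun a b => ?_
      have h3 := congrFun (congrFun h2 a) b
      rw [Matrix.mul_apply]
      have h4 : (coinM x true * Z).submatrix finSumFinEquiv finSumFinEquiv a b =
          ∑ k, coinM x true (finSumFinEquiv a) k * Z k (finSumFinEquiv b) := rfl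
      have h5 : (coinM x false).submatrix finSumFinEquiv finSumFinEquiv a b =
          (Matrix.fromBlocks 1 0 0 0 : Matrix (Fin n ⊕ Fin n) (Fin n ⊕ Fin n) ℚ) a b := by
        show (Matrix.fromBlocks 1 0 0 0 : Matrix (Fin n ⊕ Fin n) (Fin n ⊕ Fin n) ℚ)
          (finSumFinEquiv.symm (finSumFinEquiv a)) (finSumFinEquiv.symm (finSumFinEquiv b)) = _
        rw [Equiv.symm_apply_apply, Equiv.symm_apply_apply]
      rw [← h5, ← h3, h4, ← Equiv.sum_comp finSumFinEquiv]
      refine Finset.sum_congr rfl fun k _ => ?_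
      show _ = (Matrix.fromBlocks 0 (valM x) 0 0 : Matrix (Fin n ⊕ Fin n) (Fin n ⊕ Fin n) ℚ)
        (finSumFinEquiv.symm (finSumFinEquiv a)) (finSumFinEquiv.symm (finSumFinEquiv k)) * _
      rw [Equiv.symm_apply_apply, Equiv.symm_apply_apply]
      rfl
    have h6 : valM x * (Z.submatrix finSumFinEquiv finSumFinEquiv).toBlocks₂₁ = 1 := by
      refine Matrix.ext fun i j => ?_
      have h7 := congrFun (congrFun h1 (Sum.inl i)) (Sum.inl j)
      rw [Matrix.mul_apply, Fintype.sum_sum_type] at h7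
      rw [Matrix.mul_apply]
      have h8 : (Matrix.fromBlocks 1 0 0 0 : Matrix (Fin n ⊕ Fin n) (Fin n ⊕ Fin n) ℚ)
        (Sum.inl i) (Sum.inl j) = (1 : Matrix (Fin n) (Fin n) ℚ) i j := rfl
      rw [h8] at h7
      rw [← h7]
      have h9 : ∀ k : Fin n, (Matrix.fromBlocks 0 (valM x) 0 0 :
          Matrix (Fin n ⊕ Fin n) (Fin n ⊕ Fin n) ℚ) (Sum.inl i) (Sum.inl k) *
          Z.submatrix finSumFinEquiv finSumFinEquiv (Sum.inl k) (Sum.inl j) = 0 := fun k =>
        zero_mul _
      rw [Finset.sum_eq_zero fun k _ => h9 k, zero_add]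
      rfl
    intro h0
    have h7 := congrArg Matrix.det h6
    rw [Matrix.det_mul, h0, zero_mul, Matrix.det_one] at h7
    exact zero_ne_one h7
  · intro h
    have h1 : IsUnit (valM x).det := isUnit_iff_ne_zero.mpr h
    refine ⟨Matrix.reindex finSumFinEquiv finSumFinEquiv (Matrix.fromBlocks 0 0 (valM x)⁻¹ 0), ?_⟩
    unfold coinM
    rw [if_pos rfl, if_neg (by decide), Matrix.reindex_apply, Matrix.reindex_apply,
      Matrix.submatrix_mul_equiv, Matrix.fromBlocks_multiply, Matrix.reindex_apply]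
    congr 1
    rw [Matrix.mul_nonsing_inv _ h1]
    simp

/-- the sign as a rational number -/
def sQ (a : ZMod 2) : ℚ := ((sg a : ℤ) : ℚ)

theorem sQ_add (a b : ZMod 2) : sQ (a + b) = sQ a * sQ b := by
  unfold sQ
  rw [sg_add, Int.cast_mul]

theorem sQ_self (a : ZMod 2) : sQ a * sQ a = 1 := by
  unfold sQ
  rw [← Int.cast_mul, sg_mul_self, Int.cast_one]

/-- the diagonal matrix of signs -/
def sD (h : Flips n m) : Matrix (Fin (n + n)) (Fin (n + n)) ℚ :=
  Matrix.diagonal fun a => Sum.elim (fun i => sQ (h.1 i)) (fun j => sQ (h.2.1 j))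
    (finSumFinEquiv.symm a)

theorem sD_add (g h : Flips n m) : sD (g + h) = sD g * sD h := by
  unfold sD
  rw [Matrix.diagonal_mul_diagonal]
  congr 1
  funext a
  rcases finSumFinEquiv.symm a with i | j
  · exact sQ_add _ _
  · exact sQ_add _ _

theorem sD_self (h : Flips n m) : sD h * sD h = 1 := by
  unfold sD
  rw [Matrix.diagonal_mul_diagonal, ← Matrix.diagonal_one]
  congr 1
  funext a
  rcases finSumFinEquiv.symm a with i | j
  · exact sQ_self _
  · exact sQ_self _

theorem valM_flip (h : Flips n m) (x : Tup n m × (Fin m → ℤ)) (i j : Fin n) :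
    valM (coinFlip h x) i j = sQ (h.1 i) * valM x i j * sQ (h.2.1 j) := by
  show ∑ v, (((if h.1 i + h.2.1 j + h.2.2 v = 0 then 1 else -1) * x.1 v i j : ℤ) : ℚ) *
    (((if h.2.2 v = 0 then 1 else -1) * x.2 v : ℤ) : ℚ) = _
  show _ = sQ (h.1 i) * (∑ v, ((x.1 v i j : ℤ) : ℚ) * ((x.2 v : ℤ) : ℚ)) * sQ (h.2.1 j)
  rw [Finset.mul_sum, Finset.sum_mul]
  refine Finset.sum_congr rfl fun v _ => ?_
  have h1 : ∀ a b c : ZMod 2, (if a + b + c = 0 then 1 else -1 : ℤ) *
      (if c = 0 then 1 else -1 : ℤ) = sg a * sg b := by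
    decide
  have h2 := h1 (h.1 i) (h.2.1 j) (h.2.2 v)
  have h3 : ((if h.1 i + h.2.1 j + h.2.2 v = 0 then 1 else -1 : ℤ) : ℚ) *
      ((if h.2.2 v = 0 then 1 else -1 : ℤ) : ℚ) = sQ (h.1 i) * sQ (h.2.1 j) := by
    unfold sQ
    rw [← Int.cast_mul, h2, Int.cast_mul]
  rw [Int.cast_mul, Int.cast_mul]
  calc _ = (((if h.1 i + h.2.1 j + h.2.2 v = 0 then 1 else -1 : ℤ) : ℚ) *
      ((if h.2.2 v = 0 then 1 else -1 : ℤ) : ℚ)) * ((x.1 v i j : ℚ) * (x.2 v : ℚ)) := by ring
    _ = _ := by rw [h3]; ring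

/-- The gate. -/
theorem coin_gate (n m : ℕ) :
    ClassGate coinFlip ℚ ⊤ (n + n) (LocalCoin ℚ n m 1) (coinV (n := n) (m := m)) := by
  classical
  refine ⟨Bool, RingHom.id ℚ, fun _ => (false, false), coinM,
    fun h => ⟨sD h.1, sD h.1, sD_self h.1, sD_self h.1⟩, ?_, ?_, ?_, ?_⟩
  · intro b a a'
    cases b with
    | false =>
      refine Submodule.subset_span ⟨∅, ∅, ∅, ?_, fun _ _ _ _ => rfl⟩
      simp
    | true =>
      have h1 : (fun x : Tup n m × (Fin m → ℤ) => coinM x true a a') =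
          ∑ v, fun x : Tup n m × (Fin m → ℤ) =>
            (Matrix.fromBlocks 0 (Matrix.of fun i j => ((x.1 v i j : ℤ) : ℚ) * ((x.2 v : ℤ) : ℚ))
              0 0 : Matrix (Fin n ⊕ Fin n) (Fin n ⊕ Fin n) ℚ) (finSumFinEquiv.symm a)
              (finSumFinEquiv.symm a') := by
        funext x
        rw [Finset.sum_apply]
        show (Matrix.fromBlocks 0 (valM x) 0 0 : Matrix (Fin n ⊕ Fin n) (Fin n ⊕ Fin n) ℚ)
          (finSumFinEquiv.symm a) (finSumFinEquiv.symm a') = _
        rcases finSumFinEquiv.symm a with i | i <;> rcases finSumFinEquiv.symm a' with j | j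
        · exact (Finset.sum_eq_zero fun v _ => rfl).symm
        · rfl
        · exact (Finset.sum_eq_zero fun v _ => rfl).symm
        · exact (Finset.sum_eq_zero fun v _ => rfl).symm
      rw [h1]
      refine Submodule.sum_mem _ fun v _ => Submodule.subset_span ⟨∅, ∅, {v}, ?_, ?_⟩
      · simp
      · intro x y hxy hc
        have h2 : ∀ i j, x.1 v i j = y.1 v i j := fun i j =>
          hxy v i j (Or.inr (Or.inr (Finset.mem_singleton_self v)))
        have h3 : x.2 v = y.2 v := hc v (Finset.mem_singleton_self v)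
        have h4 : (Matrix.of fun i j => ((x.1 v i j : ℤ) : ℚ) * ((x.2 v : ℤ) : ℚ) :
            Matrix (Fin n) (Fin n) ℚ) =
            Matrix.of fun i j => ((y.1 v i j : ℤ) : ℚ) * ((y.2 v : ℤ) : ℚ) := by
          refine Matrix.ext fun i j => ?_
          show ((x.1 v i j : ℤ) : ℚ) * ((x.2 v : ℤ) : ℚ) =
            ((y.1 v i j : ℤ) : ℚ) * ((y.2 v : ℤ) : ℚ)
          rw [h2, h3]
        show (Matrix.fromBlocks 0 (Matrix.of fun i j => ((x.1 v i j : ℤ) : ℚ) *
          ((x.2 v : ℤ) : ℚ)) 0 0 : Matrix (Fin n ⊕ Fin n) (Fin n ⊕ Fin n) ℚ) _ _ = _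
        rw [h4]
  · intro g h
    exact Units.ext (sD_add g.1 h.1)
  · intro h x b
    refine Matrix.ext fun a a' => ?_
    show coinM (coinFlip h.1 x) b a a' = (sD h.1 * coinM x b * sD h.1) a a'
    unfold sD
    rw [Matrix.mul_diagonal, Matrix.diagonal_mul]
    cases b with
    | false =>
      show (Matrix.fromBlocks 1 0 0 0 : Matrix (Fin n ⊕ Fin n) (Fin n ⊕ Fin n) ℚ)
        (finSumFinEquiv.symm a) (finSumFinEquiv.symm a') = _ *
        (Matrix.fromBlocks 1 0 0 0 : Matrix (Fin n ⊕ Fin n) (Fin n ⊕ Fin n) ℚ)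
        (finSumFinEquiv.symm a) (finSumFinEquiv.symm a') * _
      rcases finSumFinEquiv.symm a with i | i <;> rcases finSumFinEquiv.symm a' with j | j
      · show (1 : Matrix (Fin n) (Fin n) ℚ) i j = sQ (h.1.1 i) *
          (1 : Matrix (Fin n) (Fin n) ℚ) i j * sQ (h.1.1 j)
        by_cases hij : i = j
        · rw [hij, Matrix.one_apply_eq, mul_one, sQ_self]
        · rw [Matrix.one_apply_ne hij, mul_zero, zero_mul]
      · show (0 : ℚ) = _ * 0 * _
        rw [mul_zero, zero_mul]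
      · show (0 : ℚ) = _ * 0 * _
        rw [mul_zero, zero_mul]
      · show (0 : ℚ) = _ * 0 * _
        rw [mul_zero, zero_mul]
    | true =>
      show (Matrix.fromBlocks 0 (valM (coinFlip h.1 x)) 0 0 :
        Matrix (Fin n ⊕ Fin n) (Fin n ⊕ Fin n) ℚ)
        (finSumFinEquiv.symm a) (finSumFinEquiv.symm a') = _ *
        (Matrix.fromBlocks 0 (valM x) 0 0 : Matrix (Fin n ⊕ Fin n) (Fin n ⊕ Fin n) ℚ)
        (finSumFinEquiv.symm a) (finSumFinEquiv.symm a') * _
      rcases finSumFinEquiv.symm a with i | i <;> rcases finSumFinEquiv.symm a' with j | j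
      · show (0 : ℚ) = _ * 0 * _
        rw [mul_zero, zero_mul]
      · exact valM_flip h.1 x i j
      · show (0 : ℚ) = _ * 0 * _
        rw [mul_zero, zero_mul]
      · show (0 : ℚ) = _ * 0 * _
        rw [mul_zero, zero_mul]
  · rintro x x' ⟨q, hq⟩
    have hmv : ∀ b, coinM x' b = q.1 * coinM x b * q⁻¹.1 := fun b => hq b
    have h1 : q⁻¹.1 * q.1 = 1 := q.inv_mul
    have h2 : q.1 * q⁻¹.1 = 1 := q.mul_inv
    refine propext ⟨?_, ?_⟩
    · rintro ⟨Z, hZ⟩
      refine ⟨q.1 * Z * q⁻¹.1, ?_⟩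
      rw [hmv, hmv, ← hZ]
      calc q.1 * coinM x true * q⁻¹.1 * (q.1 * Z * q⁻¹.1)
          = q.1 * coinM x true * (q⁻¹.1 * q.1) * Z * q⁻¹.1 := by simp only [mul_assoc]
        _ = q.1 * (coinM x true * Z) * q⁻¹.1 := by rw [h1, mul_one]; simp only [mul_assoc]
    · rintro ⟨Z, hZ⟩
      refine ⟨q⁻¹.1 * Z * q.1, ?_⟩
      rw [hmv, hmv] at hZ
      have h3 := congrArg (fun A => q⁻¹.1 * A * q.1) hZ
      calc coinM x true * (q⁻¹.1 * Z * q.1)
          = (q⁻¹.1 * q.1) * coinM x true * (q⁻¹.1 * Z * q.1) := by rw [h1, one_mul]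
        _ = q⁻¹.1 * (q.1 * coinM x true * q⁻¹.1 * Z) * q.1 := by simp only [mul_assoc]
        _ = q⁻¹.1 * (q.1 * coinM x false * q⁻¹.1) * q.1 := h3
        _ = (q⁻¹.1 * q.1) * coinM x false * (q⁻¹.1 * q.1) := by simp only [mul_assoc]
        _ = coinM x false := by rw [h1, one_mul, mul_one]

/-- the value of the symbolic determinant -/
theorem valM_det (A : Tup n m) (c : Fin m → ℤ) :
    (valM (A, c)).det = MvPolynomial.eval (fun v => ((c v : ℤ) : ℚ)) (symb A).det := by
  rw [RingHom.map_det]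
  congr 1
  refine Matrix.ext fun i j => ?_
  show ∑ v, ((A v i j : ℤ) : ℚ) * ((c v : ℤ) : ℚ) = MvPolynomial.eval _
    (∑ v, MvPolynomial.C ((A v i j : ℤ) : ℚ) * MvPolynomial.X v)
  rw [map_sum]
  refine Finset.sum_congr rfl fun v _ => ?_
  rw [map_mul, MvPolynomial.eval_C, MvPolynomial.eval_X]

theorem symb_degree (A : Tup n m) : (symb A).det.totalDegree ≤ n := by
  classical
  rw [Matrix.det_apply']
  refine MvPolynomial.totalDegree_finsetSum_le fun σ _ => ?_
  refine (MvPolynomial.totalDegree_mul _ _).trans ?_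
  have h1 : (((Equiv.Perm.sign σ : ℤ) : MvPolynomial (Fin m) ℚ)).totalDegree = 0 := by
    have h2 : ((Equiv.Perm.sign σ : ℤ) : MvPolynomial (Fin m) ℚ) =
        MvPolynomial.C ((Equiv.Perm.sign σ : ℤ) : ℚ) := (map_intCast _ _).symm
    rw [h2, MvPolynomial.totalDegree_C]
  rw [h1, zero_add]
  refine (MvPolynomial.totalDegree_finsetProd _ _).trans ?_
  have h3 : ∀ i ∈ (univ : Finset (Fin n)), (symb A (σ i) i).totalDegree ≤ 1 := by
    intro i _
    show (∑ v, MvPolynomial.C ((A v (σ i) i : ℤ) : ℚ) * MvPolynomial.X v :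
      MvPolynomial (Fin m) ℚ).totalDegree ≤ 1
    refine MvPolynomial.totalDegree_finsetSum_le fun v _ => ?_
    refine (MvPolynomial.totalDegree_mul _ _).trans ?_
    rw [MvPolynomial.totalDegree_C, MvPolynomial.totalDegree_X]
  refine (Finset.sum_le_sum h3).trans ?_
  rw [Finset.sum_const, Finset.card_univ, Fintype.card_fin, smul_eq_mul, mul_one]

/-- the sign symmetric set of numbers -/
noncomputable def pm (L : ℕ) : Finset ℤ := (Finset.Icc (-(L : ℤ)) (L : ℤ)).erase 0

theorem card_pm (L : ℕ) : (pm L).card = 2 * L := by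
  unfold pm
  rw [Finset.card_erase_of_mem (Finset.mem_Icc.mpr (by omega)), Int.card_Icc]
  omega

/-- the probability of an error -/
theorem coin_error (A : Tup n m) (hA : (symb A).det ≠ 0) (L : ℕ) (hL : 0 < L) :
    ((Fintype.piFinset fun _ : Fin m => pm L).filter fun c => (valM (A, c)).det = 0).card *
      (2 * L) ≤ n * (2 * L) ^ m := by
  classical
  let S : Finset ℚ := (pm L).image fun a : ℤ => (a : ℚ)
  have hS : S.card = 2 * L := by
    rw [Finset.card_image_of_injective _ Int.cast_injective, card_pm]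
  have h1 := MvPolynomial.schwartz_zippel_totalDegree hA S
  have h2 : ((Fintype.piFinset fun _ : Fin m => pm L).filter fun c =>
      (valM (A, c)).det = 0).card ≤
      ((Fintype.piFinset fun _ : Fin m => S).filter fun c =>
        MvPolynomial.eval c (symb A).det = 0).card := by
    refine Finset.card_le_card_of_injOn (fun c v => ((c v : ℤ) : ℚ)) ?_ ?_
    · intro c hc
      have h3 := Finset.mem_filter.mp (Finset.mem_coe.mp hc)
      refine Finset.mem_coe.mpr (Finset.mem_filter.mpr ⟨?_, ?_⟩)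
      · rw [Fintype.mem_piFinset]
        intro v
        exact Finset.mem_image_of_mem _ (Fintype.mem_piFinset.mp h3.1 v)
      · rw [← valM_det]
        exact h3.2
    · intro c _ c' _ h
      funext v
      exact Int.cast_injective (congrFun h v)
  rw [hS] at h1
  have hL0 : (0 : ℚ≥0) < ((2 * L : ℕ) : ℚ≥0) := by exact_mod_cast (by omega : 0 < 2 * L)
  have hm0 : (0 : ℚ≥0) < ((2 * L : ℕ) : ℚ≥0) ^ m := pow_pos hL0 m
  rw [div_le_div_iff₀ hm0 hL0] at h1
  have h4 : ((Fintype.piFinset fun _ : Fin m => S).filter fun c =>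
        MvPolynomial.eval c (symb A).det = 0).card * (2 * L) ≤
      (symb A).det.totalDegree * (2 * L) ^ m := by exact_mod_cast h1
  calc _ ≤ ((Fintype.piFinset fun _ : Fin m => S).filter fun c =>
        MvPolynomial.eval c (symb A).det = 0).card * (2 * L) := Nat.mul_le_mul_right _ h2
    _ ≤ (symb A).det.totalDegree * (2 * L) ^ m := h4
    _ ≤ n * (2 * L) ^ m := Nat.mul_le_mul_right _ (symb_degree A)

end Pool.Agent.TH658.Sd
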