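import Pool.Agent.TH658.Sd.Eng

set_option autoImplicit false
set_option linter.unusedSectionVars false

/-! The matrices with two cyclic diagonals, and block diagonal matrices. -/

namespace Pool.Agent.TH658.Sd

open Finset

variable {N : ℕ} [NeZero N] {L : Type*} [Field L]

theorem add_one_ne (hN : 2 ≤ N) (i : Fin N) : i + 1 ≠ i := by
  obtain ⟨n, rfl⟩ : ∃ n, N = n + 1 := ⟨N - 1, by omega⟩
  intro h
  have h1 : (1 : Fin (n + 1)) = 0 := by
    have h2 : i + 1 = i + 0 := by rw [h, add_zero]
    exact add_left_cancel h2
  rw [Fin.one_eq_zero_iff] at h1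
  omega

/-- the permutations moving each element at most to the next one -/
theorem perm_two (σ : Equiv.Perm (Fin N)) (h : ∀ i, σ i = i ∨ σ i = i + 1) :
    σ = 1 ∨ σ = Equiv.addRight 1 := by
  classical
  have h1 := const_of_rot (fun i => if σ i = i then (0 : ZMod 2) else 1) (fun i => by
    show (if σ (i - 1) = i - 1 then (0 : ZMod 2) else 1) = if σ i = i then (0 : ZMod 2) else 1
    refine if_congr ⟨fun h2 => ?_, fun h2 => ?_⟩ rfl rfl
    · by_contra hn
      have h3 : σ i = i + 1 := (h i).resolve_left hn
      have h4 : σ (σ.symm i) = i := σ.apply_symm_apply i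
      rcases h (σ.symm i) with h5 | h5
      · rw [h4] at h5
        rw [← h5] at h4
        exact hn h4
      · rw [h4] at h5
        have h6 : σ.symm i = i - 1 := by rw [h5, add_sub_cancel_right]; exact congrArg σ.symm h5.symm
        rw [h6, h2] at h4
        rw [h4] at h2
        exact hn h2
    · by_contra hn
      have h3 := (h (i - 1)).resolve_left hn
      rw [sub_add_cancel] at h3
      have h4 : i - 1 = i := σ.injective (h3.trans h2.symm)
      rw [h4] at hn
      exact hn h2)
  by_cases h2 : σ 0 = 0
  · left
    refine Equiv.ext fun i => ?_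
    have h3 := h1 i 0
    by_contra hn
    have h4 : ¬ σ i = i := hn
    simp only [if_neg h4, if_pos h2] at h3
    exact one_ne_zero h3
  · right
    refine Equiv.ext fun i => ?_
    have h3 := h1 i 0
    rcases h i with h4 | h4
    · simp only [if_pos h4, if_neg h2] at h3
      exact absurd h3.symm one_ne_zero
    · exact h4

/-- the matrix with the diagonals `u` and `v` -/
def cyc (u v : Fin N → L) : Matrix (Fin N) (Fin N) L :=
  fun i j => (if j = i then u i else 0) + (if j = i + 1 then v i else 0)

theorem det_cyc (hN : 2 ≤ N) (u v : Fin N → L) :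
    (cyc u v).det = ∏ i, u i + ((Equiv.Perm.sign (Equiv.addRight (1 : Fin N)) : ℤ) : L) *
      ∏ i, v i := by
  classical
  have hne : (1 : Equiv.Perm (Fin N)) ≠ Equiv.addRight 1 := by
    intro h
    have h1 : (0 : Fin N) = 0 + 1 := congrArg (fun σ : Equiv.Perm (Fin N) => σ 0) h
    exact add_one_ne hN 0 h1.symm
  rw [← Matrix.det_transpose, Matrix.det_apply']
  rw [← Finset.sum_subset (Finset.subset_univ {1, Equiv.addRight (1 : Fin N)})]
  · rw [Finset.sum_pair hne, Equiv.Perm.sign_one]
    congr 1
    · rw [Units.val_one, Int.cast_one, one_mul]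
      refine Finset.prod_congr rfl fun i _ => ?_
      show (if i = i then u i else 0) + (if i = i + 1 then v i else 0) = u i
      rw [if_pos rfl, if_neg (add_one_ne hN i).symm, add_zero]
    · congr 1
      refine Finset.prod_congr rfl fun i _ => ?_
      show (if i + 1 = i then u i else 0) + (if i + 1 = i + 1 then v i else 0) = v i
      rw [if_pos rfl, if_neg (add_one_ne hN i), zero_add]
  · intro σ _ hσ
    have h1 : ∃ i, ¬ (σ i = i ∨ σ i = i + 1) := by
      by_contra hn
      rw [not_exists] at hn
      replace hn := fun i => not_not.mp (hn i)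
      refine hσ ?_
      rw [Finset.mem_insert, Finset.mem_singleton]
      exact perm_two σ hn
    obtain ⟨i, hi⟩ := h1
    push Not at hi
    rw [Finset.prod_eq_zero (mem_univ i), mul_zero]
    show (if σ i = i then u i else 0) + (if σ i = i + 1 then v i else 0) = 0
    rw [if_neg hi.1, if_neg hi.2, add_zero]

variable {k n : ℕ}

/-- the inclusion of the block indices -/
def inc (e : Fin N × Fin k → Fin n) : Matrix (Fin n) (Fin N × Fin k) L :=
  fun i p => if e p = i then 1 else 0

/-- `k` copies of `M` in an `n × n` matrix -/
def copies (e : Fin N × Fin k → Fin n) (M : Matrix (Fin N) (Fin N) L) :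
    Matrix (Fin n) (Fin n) L :=
  (inc e : Matrix (Fin n) (Fin N × Fin k) L) *
    (Matrix.blockDiagonal (fun _ : Fin k => M) : Matrix (Fin N × Fin k) (Fin N × Fin k) L) *
    Matrix.transpose (inc e : Matrix (Fin n) (Fin N × Fin k) L)

theorem copies_apply (e : Fin N × Fin k → Fin n) (M : Matrix (Fin N) (Fin N) L) (i j : Fin n) :
    copies e M i j = ∑ a : Fin k, ∑ p : Fin N, ∑ q : Fin N,
      (if e (p, a) = i then 1 else 0) * M p q * (if e (q, a) = j then 1 else 0) := by
  classical
  unfold copies
  rw [Matrix.mul_apply]
  have h1 : ∀ q : Fin N × Fin k, ((inc e : Matrix (Fin n) (Fin N × Fin k) L) *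
      (Matrix.blockDiagonal (fun _ : Fin k => M) : Matrix (Fin N × Fin k) (Fin N × Fin k) L)) i q *
      Matrix.transpose (inc e : Matrix (Fin n) (Fin N × Fin k) L) q j = ∑ p : Fin N,
      (if e (p, q.2) = i then 1 else 0) * M p q.1 * (if e q = j then 1 else 0) := by
    intro q
    rw [Matrix.mul_apply, Finset.sum_mul, Fintype.sum_prod_type]
    refine Finset.sum_congr rfl fun p _ => ?_
    rw [Finset.sum_eq_single q.2]
    · show (if e (p, q.2) = i then (1 : L) else 0) * (if q.2 = q.2 then M p q.1 else 0) *
        (if e q = j then 1 else 0) = _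
      rw [if_pos rfl]
    · intro b _ hb
      show (if e (p, b) = i then (1 : L) else 0) * (if b = q.2 then M p q.1 else 0) *
        (if e q = j then 1 else 0) = 0
      rw [if_neg hb, mul_zero, zero_mul]
    · intro h
      exact absurd (mem_univ _) h
  rw [Finset.sum_congr rfl fun q _ => h1 q, Fintype.sum_prod_type, Finset.sum_comm]
  refine Finset.sum_congr rfl fun a _ => ?_
  rw [Finset.sum_comm]

/-- nonsingular copies -/
theorem rank_copies_ge (e : Fin N × Fin k ↪ Fin n) (M : Matrix (Fin N) (Fin N) L)
    (hM : M.det ≠ 0) : k * N ≤ (copies e M).rank := by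
  classical
  have h1 : (copies e M).submatrix e e = Matrix.blockDiagonal (fun _ : Fin k => M) := by
    refine Matrix.ext fun p q => ?_
    rw [Matrix.submatrix_apply, copies_apply, Finset.sum_eq_single q.2]
    · rw [Finset.sum_eq_single p.1, Finset.sum_eq_single q.1]
      · rw [if_pos rfl, mul_one]
        show (if e (p.1, q.2) = e p then (1 : L) else 0) * M p.1 q.1 =
          if p.2 = q.2 then M p.1 q.1 else 0
        by_cases hpq : p.2 = q.2
        · rw [if_pos hpq, if_pos (by rw [← hpq]), one_mul]
        · rw [if_neg hpq, if_neg, zero_mul]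
          intro h
          exact hpq (congrArg Prod.snd (e.injective h)).symm
      · intro b _ hb
        rw [if_neg (fun h : e (b, q.2) = e q => hb (congrArg Prod.fst (e.injective h))), mul_zero]
      · intro h
        exact absurd (mem_univ _) h
      · intro b _ hb
        refine Finset.sum_eq_zero fun c _ => ?_
        rw [if_neg (fun h : e (b, q.2) = e p => hb (congrArg Prod.fst (e.injective h))), zero_mul,
          zero_mul]
      · intro h
        exact absurd (mem_univ _) h
    · intro a _ ha
      refine Finset.sum_eq_zero fun b _ => Finset.sum_eq_zero fun c _ => ?_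
      rw [if_neg (fun h : e (c, a) = e q => ha (congrArg Prod.snd (e.injective h))), mul_zero]
    · intro h
      exact absurd (mem_univ _) h
  have h2 := Matrix.rank_submatrix_le (copies e M) e e
  rw [h1, Matrix.rank_of_isUnit, Fintype.card_prod, Fintype.card_fin, Fintype.card_fin] at h2
  · rw [mul_comm]
    exact h2
  · rw [Matrix.isUnit_iff_isUnit_det, Matrix.det_blockDiagonal, isUnit_iff_ne_zero]
    exact Finset.prod_ne_zero_iff.mpr fun _ _ => hM

/-- singular copies -/
theorem rank_copies_le (e : Fin N × Fin k → Fin n) (M : Matrix (Fin N) (Fin N) L)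
    (hM : M.det = 0) : (copies e M).rank ≤ k * (N - 1) := by
  classical
  obtain ⟨x, hx, hx0⟩ := Matrix.exists_mulVec_eq_zero_iff.mpr hM
  have h1 : (copies e M).rank ≤ (Matrix.blockDiagonal (fun _ : Fin k => M)).rank :=
    (Matrix.rank_mul_le_left _ _).trans (Matrix.rank_mul_le_right _ _)
  refine h1.trans ?_
  have h2 := LinearMap.finrank_range_add_finrank_ker
    (Matrix.blockDiagonal (fun _ : Fin k => M)).mulVecLin
  have h3 : Module.finrank L (Fin N × Fin k → L) = N * k := by
    rw [Module.finrank_fintype_fun_eq_card, Fintype.card_prod, Fintype.card_fin, Fintype.card_fin]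
  rw [h3] at h2
  let g : (Fin k → L) →ₗ[L] LinearMap.ker
      (Matrix.blockDiagonal (fun _ : Fin k => M)).mulVecLin :=
    { toFun := fun c => ⟨fun p => x p.1 * c p.2, by
        rw [LinearMap.mem_ker, Matrix.mulVecLin_apply]
        funext p
        show ∑ q : Fin N × Fin k, (if p.2 = q.2 then M p.1 q.1 else 0) * (x q.1 * c q.2) = 0
        rw [Fintype.sum_prod_type]
        have h4 : ∀ q : Fin N, ∑ b : Fin k, (if p.2 = b then M p.1 q else 0) * (x q * c b) =
            M p.1 q * x q * c p.2 := by
          intro q
          rw [Finset.sum_eq_single p.2]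
          · rw [if_pos rfl, mul_assoc]
          · intro b _ hb
            rw [if_neg (Ne.symm hb), zero_mul]
          · intro h
            exact absurd (mem_univ _) h
        rw [Finset.sum_congr rfl fun q _ => h4 q, ← Finset.sum_mul]
        have h5 : ∑ q, M p.1 q * x q = 0 := congrFun hx0 p.1
        rw [h5, zero_mul]⟩
      map_add' := fun c c' => Subtype.ext (funext fun p => mul_add _ _ _)
      map_smul' := fun r c => Subtype.ext (funext fun p => by
        show x p.1 * (r * c p.2) = r * (x p.1 * c p.2)
        ring) }
  have hg : Function.Injective g := by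
    rw [injective_iff_map_eq_zero]
    intro c hc
    obtain ⟨i, hi⟩ : ∃ i, x i ≠ 0 := by
      by_contra hn
      push Not at hn
      exact hx (funext hn)
    funext a
    have h4 : x i * c a = 0 := congrFun (congrArg Subtype.val hc) (i, a)
    exact (mul_eq_zero.mp h4).resolve_left hi
  have h4 := LinearMap.finrank_le_finrank_of_injective hg
  rw [Module.finrank_fintype_fun_eq_card, Fintype.card_fin] at h4
  have h5 : (Matrix.blockDiagonal (fun _ : Fin k => M)).rank = Module.finrank L
    (LinearMap.range (Matrix.blockDiagonal (fun _ : Fin k => M)).mulVecLin) := rfl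
  rw [h5, Nat.mul_sub, mul_one, mul_comm k N]
  omega

end Pool.Agent.TH658.Sd
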