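import Pool.Agent.TH658.Sd.Good

set_option autoImplicit false
set_option linter.unusedSectionVars false

/-! The engine. -/

namespace Pool.Agent.TH658.Sd

open Finset Pool.Agent.H30R2.PS Pool.Agent.TH658.Eq

variable {N : ℕ} [NeZero N] {X V : Type}

/-- the functions available to a gate -/
def Avail {X V : Type} {s : ℕ} (K : Type) [Field K] (L : Submodule K (X → K))
    (v : Fin s → X → V) (j : Fin s) : Submodule K (X → K) :=
  L ⊔ Submodule.span K {g | ∃ i, i < j ∧ ∃ φ : V → K, g = fun A => φ (v i A)}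

/-- No small program distinguishes the two parities. -/
theorem engineG (act : GA N → X → X) (x : WR N → (SL N → ZMod 2) → X)
    (hx : ∀ w t h, x w (t + BW w h) = act h (x w t)) {s : ℕ}
    (H : Fin s → Submodule (ZMod 2) (GA N)) (C : ∀ j, Finset (Chr (H j)))
    (hC : ∀ j, (C j).Nonempty) (Kf : Fin s → Type) (iK : ∀ j, Field (Kf j))
    (h2 : ∀ j, (2 : Kf j) ≠ 0) (E : ∀ j, Set (X → Kf j)) (v : Fin s → X → V)
    (hv : ∀ j, InvG (SL N) act (H j) (C j) (E j) (v j)) (τ : ℕ) (hτ : 8 * τ ≤ N)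
    (L : ∀ j, Submodule (Kf j) (X → Kf j))
    (hL : ∀ j w, ∀ f ∈ L j, (fun t => f (x w t)) ∈ Sp (Kf j) {l : SL N → ZMod 2 | wt l ≤ τ})
    (hE : ∀ j, ∀ f ∈ E j, f ∈ Avail (Kf j) (L j) v j) (j0 : Fin s)
    (hsep : ∀ w t t', chi t ≠ chi t' → v j0 (x w t) ≠ v j0 (x w t')) :
    2 ^ τ ≤ ∑ j, (C j).card ^ 2 * (H j).toAddSubgroup.index := by
  classical
  by_contra hcon
  rw [not_le] at hcon
  obtain ⟨w, hw⟩ := exists_goodG H C τ hτ hcon
  have hall : ∀ j, ∀ e : SL N → ZMod 2, (∀ l : SL N → ZMod 2, wt l ≤ τ →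
      (∀ h : H j, dot l (BW w (h : GA N)) = 0) → dot l e = 0) → ∀ t,
      v j (x w (t + e)) = v j (x w t) := by
    intro j
    induction j using WellFoundedLT.induction with
    | _ j ih =>
      refine hv j (BW w) (x w) (hx w) τ ?_ (hw j)
      intro f hf
      let W := Sp (Kf j) {l : SL N → ZMod 2 | wt l ≤ τ}
      let P : Submodule (Kf j) (X → Kf j) :=
        { carrier := {f | (fun t => f (x w t)) ∈ W}
          add_mem' := fun {f g} hf hg => W.add_mem hf hg
          zero_mem' := W.zero_mem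
          smul_mem' := fun c {f} hf => W.smul_mem c hf }
      have h3 : Avail (Kf j) (L j) v j ≤ P := by
        refine sup_le (fun f hf => hL j w f hf) (Submodule.span_le.mpr ?_)
        rintro _ ⟨i, hi, φ, rfl⟩
        exact low_of_inv (h2 j) (hC i) (BW w) τ (hw i) (fun t => φ (v i (x w t)))
          (fun e he t => congrArg φ (ih i hi e he t))
      exact h3 (hE j f hf)
  have hone : (1 : SL N → ZMod 2) ∉ lightU (H j0) (C j0) (hC j0) (BW w) τ (hw j0) := by
    rintro ⟨h1, _⟩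
    have h3 : wt (1 : SL N → ZMod 2) = N * 2 := by
      have h4 : (univ.filter fun j : SL N => (1 : SL N → ZMod 2) j ≠ 0) = univ :=
        Finset.filter_true_of_mem fun j _ => one_ne_zero
      unfold wt
      rw [h4, Finset.card_univ, Fintype.card_prod, Fintype.card_fin, Fintype.card_bool]
    rw [h3] at h1
    have h4 := NeZero.pos N
    omega
  obtain ⟨e, he, he1⟩ := sep _ 1 hone
  have h5 := hall j0 e (fun l hl hadj => (dot_comm _ _).trans (he l ⟨hl, hadj⟩)) 0
  refine hsep w (0 + e) 0 ?_ h5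
  rw [zero_add, chi_eq_sg, chi_eq_sg]
  have h6 : ∑ s, (0 : SL N → ZMod 2) s = 0 := Finset.sum_eq_zero fun s _ => rfl
  have h7 : ∑ s, e s = 1 := by
    have h8 : dot e 1 = ∑ s, e s := Finset.sum_congr rfl fun s _ => mul_one _
    rw [← h8]
    have h9 : ∀ a : ZMod 2, a ≠ 0 → a = 1 := by decide
    exact h9 _ he1
  rw [h6, h7]
  decide

end Pool.Agent.TH658.Sd
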