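import Pool.Agent.TH658.Eq.Tuple

set_option autoImplicit false
set_option linter.unusedSectionVars false

/-! Gates computing invariants of equivariant matrices, for a general elementary abelian group. -/

namespace Pool.Agent.TH658.Sd

open Finset Pool.Agent.H30R2.PS Pool.Agent.TH658.Eq

variable {K : Type} [Field K] {Γ : Type} [AddCommGroup Γ] [Module (ZMod 2) Γ] [Fintype Γ]
  {S : Type} [Fintype S] [DecidableEq S] {X V : Type}

/-- no critical sums for a set of characters -/
def GoodG (H : Submodule (ZMod 2) (Γ)) (C : Finset (Chr H))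
    (B : Γ →ₗ[ZMod 2] (S → ZMod 2)) (τ : ℕ) : Prop :=
  ∀ z ∈ C, ∀ z' ∈ C, ∀ l : S → ZMod 2, τ < wt l → wt l ≤ 2 * τ →
    ∃ h : H, dot l (B (h : Γ)) ≠ z h + z' h

/-- The property of a gate used in the induction. -/
def InvG (S : Type) [Fintype S] (act : Γ → X → X) (H : Submodule (ZMod 2) (Γ)) (C : Finset (Chr H))
    (E : Set (X → K)) (v : X → V) : Prop :=
  ∀ (B : Γ →ₗ[ZMod 2] (S → ZMod 2)) (x : (S → ZMod 2) → X),
    (∀ t h, x (t + B h) = act h (x t)) → ∀ τ : ℕ,
    (∀ f ∈ E, (fun t => f (x t)) ∈ Sp K {l : S → ZMod 2 | wt l ≤ τ}) →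
    GoodG H C B τ → ∀ e : S → ZMod 2,
    (∀ l : S → ZMod 2, wt l ≤ τ → (∀ h : H, dot l (B (h : Γ)) = 0) → dot l e = 0) →
    ∀ t, v (x (t + e)) = v (x t)

/-- the light vectors invisible for the group of a gate -/
def lightU (H : Submodule (ZMod 2) Γ) (C : Finset (Chr H)) (hC : C.Nonempty)
    (B : Γ →ₗ[ZMod 2] (S → ZMod 2)) (τ : ℕ) (hgood : GoodG H C B τ) :
    Submodule (ZMod 2) (S → ZMod 2) where
  carrier := {l | wt l ≤ τ ∧ ∀ h : H, dot l (B (h : Γ)) = 0}
  add_mem' := by
    rintro l l' ⟨h1, h3⟩ ⟨h1', h3'⟩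
    obtain ⟨z, hz⟩ := hC
    have h4 : ∀ h : H, dot (l + l') (B (h : Γ)) = 0 := fun h => by
      rw [add_dot, h3, h3', add_zero]
    refine ⟨?_, h4⟩
    by_contra hn
    rw [not_le] at hn
    obtain ⟨h, hh⟩ := hgood z hz z hz _ hn ((wt_add_le l l').trans (by omega))
    exact hh ((h4 h).trans (zmod2_add_self _).symm)
  zero_mem' := ⟨by rw [wt_zero]; exact Nat.zero_le _, fun h => zero_dot _⟩
  smul_mem' := by
    rintro c l ⟨h1, h3⟩
    exact ⟨(wt_smul_le c l).trans h1, fun h => by rw [smul_dot, h3, mul_zero]⟩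

/-- functions of the value of a gate have low degree -/
theorem low_of_inv (h2 : (2 : K) ≠ 0) {H : Submodule (ZMod 2) Γ} {C : Finset (Chr H)}
    (hC : C.Nonempty) (B : Γ →ₗ[ZMod 2] (S → ZMod 2)) (τ : ℕ) (hgood : GoodG H C B τ)
    (F : (S → ZMod 2) → K)
    (hF : ∀ e : S → ZMod 2, (∀ l : S → ZMod 2, wt l ≤ τ → (∀ h : H, dot l (B (h : Γ)) = 0) →
      dot l e = 0) → ∀ t, F (t + e) = F t) :
    F ∈ Sp K {l : S → ZMod 2 | wt l ≤ τ} := by
  have h1 := mem_of_ann h2 F (lightU H C hC B τ hgood) (fun e he t =>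
    hF e (fun l hl hadj => he l ⟨hl, hadj⟩) t)
  refine Sp_mono ?_ h1
  rintro l ⟨hl, _⟩
  exact hl

/-- Gates computing functions of the traces of the words in a tuple of matrices, each symmetry of
which is given by a conjugation. -/
theorem inv_wordsG (h2 : (2 : K) ≠ 0) {ι : Type} [Fintype ι] [DecidableEq ι] [Nonempty ι]
    {Y : Type} (act : Γ → X → X) (hact0 : ∀ x, act 0 x = x)
    (hact : ∀ h h' x, act (h + h') x = act h (act h' x)) (H : Submodule (ZMod 2) (Γ))
    (M : X → Y → Matrix ι ι K)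
    (hsym : ∀ h ∈ H, ∃ q : (Matrix ι ι K)ˣ, ∀ x y, M (act h x) y = q.1 * M x y * q⁻¹.1) :
    ∃ C : Finset (Chr H), C.Nonempty ∧ C.card ≤ Fintype.card ι ^ 2 ∧ ∀ v : X → V,
      (∀ x x', (∀ ys : List Y, ((ys.map (M x)).prod).trace = ((ys.map (M x')).prod).trace) →
        v x = v x') →
      InvG S act H C {f | ∃ y i j, f = fun x => M x y i j} v := by
  classical
  let A : X × Y → Matrix ι ι K := fun p => M p.1 p.2
  obtain ⟨R, hR0, hR, hRg, hR1, hRt⟩ := exists_action (H := H) A
    (fun h p => (act (h : Γ) p.1, p.2)) (fun p => Prod.ext (hact0 p.1) rfl)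
    (fun h h' p => Prod.ext (hact h h' p.1) rfl) (fun h => by
      obtain ⟨q, hq⟩ := hsym h.1 h.2
      exact ⟨q, fun p => hq p.1 p.2⟩)
  refine ⟨univ.filter fun z => pr R z ≠ 0, ?_, ?_, ?_⟩
  · refine ⟨0, Finset.mem_filter.mpr ⟨mem_univ _, fun h0 => ?_⟩⟩
    have h1 : pr R 0 (1 : alg A) = 1 := by
      rw [pr_eig h2 (0 : Chr H) 0 (1 : alg A) (fun h => by
        rw [hR1, LinearMap.zero_apply, sK_zero, one_smul]), if_pos rfl]
    rw [h0, LinearMap.zero_apply] at h1
    have h3 : (1 : Matrix ι ι K) = 0 := (congrArg Subtype.val h1).symm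
    exact one_ne_zero h3
  · have h1 := card_le_finrank (R := R) h2 hR
    rw [Fintype.card_subtype] at h1
    refine le_trans (le_of_eq ?_) (h1.trans (finrank_alg A))
    congr 1
  · intro v hv B x hx τ hE hgood e he t
    have hself : ∀ (h : H) v, R h (R h v) = v := by
      intro h v
      rw [← hR]
      have h1 : h + h = 0 := by
        have h3 : h + h = (2 : ZMod 2) • h := (two_smul (ZMod 2) h).symm
        have h4 : (2 : ZMod 2) = 0 := rfl
        rw [h3, h4, zero_smul]
      rw [h1, hR0]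
    obtain ⟨D, _, hD2, hD3, hD4⟩ := twist' (S := S) h2 hR0 hR (B.comp H.subtype) τ
      (fun z z' hz hz' l hl hl' => hgood z (Finset.mem_filter.mpr ⟨mem_univ _, hz⟩) z'
        (Finset.mem_filter.mpr ⟨mem_univ _, hz'⟩) l hl hl') e he
    have hstep : ∀ y (u : alg A), D (gen A (x t, y) * u) = gen A (x (t + e), y) * D u := by
      intro y u
      refine hD2 (fun t => LinearMap.mulLeft K (gen A (x t, y))) ?_ ?_ t u
      · intro t h u
        show gen A (x (t + B (h : Γ)), y) * u = R h (gen A (x t, y) * R h u)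
        rw [hRg, hself, hx]
      · intro μ u
        exact functional_alg (Sp K {l : S → ZMod 2 | wt l ≤ τ}) A (fun t => (x t, y))
          (fun i j => hE _ ⟨y, i, j, rfl⟩) μ u
    have hword : ∀ ys : List Y, D ((ys.map fun y => gen A (x t, y)).prod) =
        (ys.map fun y => gen A (x (t + e), y)).prod := by
      intro ys
      induction ys with
      | nil => exact hD3 1 fun h => hR1 h
      | cons y ys ih => rw [List.map_cons, List.prod_cons, hstep, ih, List.map_cons,
          List.prod_cons]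
    let φ : Module.Dual K (alg A) :=
      (Matrix.traceLinearMap ι K K).comp (Subalgebra.toSubmodule (alg A)).subtype
    have hφ : ∀ v : alg A, φ v = (v : Matrix ι ι K).trace := fun v => rfl
    have hval : ∀ t (ys : List Y), (((ys.map fun y => gen A (x t, y)).prod : alg A) :
        Matrix ι ι K) = (ys.map (M (x t))).prod := by
      intro t ys
      induction ys with
      | nil => rfl
      | cons y ys ih =>
        rw [List.map_cons, List.prod_cons, List.map_cons, List.prod_cons, ← ih]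
        rfl
    refine hv _ _ fun ys => ?_
    have h5 := hD4 φ (fun h v => by rw [hφ, hφ, hRt]) ((ys.map fun y => gen A (x t, y)).prod)
    rw [hword, hφ, hφ, hval, hval] at h5
    exact h5

section two

variable {V1 V2 : Type} [AddCommGroup V1] [Module K V1] [AddCommGroup V2] [Module K V2]
  {H : Type} [AddCommGroup H] [Module (ZMod 2) H] [Fintype H]

/-- multiplication by the signs of the isotypic parts -/
noncomputable def tw (E : Chr H → ZMod 2) (R : H → V1 →ₗ[K] V1) : V1 →ₗ[K] V1 :=
  ∑ z : Chr H, sK K (E z) • pr R z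

theorem tw_apply (E : Chr H → ZMod 2) (R : H → V1 →ₗ[K] V1) (v : V1) :
    tw E R v = ∑ z : Chr H, sK K (E z) • pr R z v := by
  unfold tw
  rw [LinearMap.sum_apply]
  rfl

theorem pr_comm (h2 : (2 : K) ≠ 0) {R : H → V1 →ₗ[K] V1} (hR0 : ∀ v, R 0 v = v)
    (hR : ∀ h h' v, R (h + h') v = R h (R h' v)) (z : Chr H) (h : H) (u : V1) :
    pr R z (R h u) = sK K (z h) • pr R z u := by
  classical
  conv_lhs => rw [← sum_pr h2 hR0 u]
  conv_rhs => rw [← sum_pr h2 hR0 u]
  rw [map_sum, map_sum, map_sum, Finset.smul_sum]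
  refine Finset.sum_congr rfl fun y _ => ?_
  rw [R_pr hR y h u, map_smul, pr_eig h2 y z _ (fun h => R_pr hR y h _)]
  by_cases hy : z = y
  · rw [if_pos hy, hy]
  · rw [if_neg hy, smul_zero, smul_zero]

/-- The twist for maps between two representations. -/
theorem twist2 (h2 : (2 : K) ≠ 0) {R1 : H → V1 →ₗ[K] V1} {R2 : H → V2 →ₗ[K] V2}
    (hR10 : ∀ v, R1 0 v = v) (hR1 : ∀ h h' v, R1 (h + h') v = R1 h (R1 h' v))
    (hR20 : ∀ v, R2 0 v = v) (hR2 : ∀ h h' v, R2 (h + h') v = R2 h (R2 h' v))
    (B : H →ₗ[ZMod 2] (S → ZMod 2)) (a : (S → ZMod 2) → V2 →ₗ[K] V1)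
    (ha : ∀ t h v, a (t + B h) v = R1 h (a t (R2 h v))) (τ : ℕ)
    (hlow : ∀ (μ : Module.Dual K V1) (v : V2),
      (fun t => μ (a t v)) ∈ Sp K {l : S → ZMod 2 | wt l ≤ τ})
    (e : S → ZMod 2) (E : Chr H → ZMod 2)
    (hE : ∀ z z' : Chr H, pr R1 z ≠ 0 → pr R2 z' ≠ 0 → ∀ l : S → ZMod 2, wt l ≤ τ →
      (∀ h, dot l (B h) = z h + z' h) → dot l e = E z + E z') (t : S → ZMod 2) (v : V2) :
    a (t + e) v = tw E R1 (a t (tw E R2 v)) := by
  classical
  have key : ∀ z z' : Chr H, ∀ v, pr R1 z (a (t + e) (pr R2 z' v)) =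
      sK K (E z + E z') • pr R1 z (a t (pr R2 z' v)) := by
    intro z z' v
    by_cases hz : pr R1 z = 0
    · rw [hz, LinearMap.zero_apply, LinearMap.zero_apply, smul_zero]
    by_cases hz' : pr R2 z' = 0
    · rw [hz', LinearMap.zero_apply, map_zero, map_zero, map_zero, map_zero, smul_zero]
    rw [← sub_eq_zero]
    rw [← Module.forall_dual_apply_eq_zero_iff K]
    intro μ
    rw [map_sub, sub_eq_zero, map_smul, smul_eq_mul]
    have hlow' := hlow (μ.comp (pr R1 z)) (pr R2 z' v)
    have hpro := proj h2 hlow' B (z + z') (fun t h => by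
      show μ (pr R1 z (a (t + B h) (pr R2 z' v))) =
        sK K (z h + z' h) * μ (pr R1 z (a t (pr R2 z' v)))
      rw [ha, R_pr hR2 z' h v, map_smul, map_smul, map_smul, map_smul,
        pr_comm h2 hR10 hR1, map_smul, sK_add, smul_eq_mul, smul_eq_mul]
      ring)
    exact shift hpro e (E z + E z') (fun l hl => hE z z' hz hz' l hl.1 hl.2) t
  have h1 := sum_pr h2 hR20 v
  have h3 := sum_pr h2 hR10 (a (t + e) v)
  rw [← h3, tw_apply]
  refine Finset.sum_congr rfl fun z _ => ?_
  conv_lhs => rw [← h1]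
  rw [tw_apply, map_sum, map_sum, map_sum, map_sum, Finset.smul_sum]
  refine Finset.sum_congr rfl fun z' _ => ?_
  rw [key, map_smul, map_smul, smul_smul, ← sK_add]

theorem tw_tw (h2 : (2 : K) ≠ 0) (E : Chr H → ZMod 2) {R : H → V1 →ₗ[K] V1}
    (hR0 : ∀ v, R 0 v = v) (hR : ∀ h h' v, R (h + h') v = R h (R h' v)) (v : V1) :
    tw E R (tw E R v) = v := by
  classical
  have hDpr : ∀ z v, tw E R (pr R z v) = sK K (E z) • pr R z v := by
    intro z v
    rw [tw_apply, Finset.sum_eq_single z]
    · rw [pr_eig h2 z z _ (fun h => R_pr hR z h _), if_pos rfl]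
    · intro z' _ hz'
      rw [pr_eig h2 z z' _ (fun h => R_pr hR z h _), if_neg hz', smul_zero]
    · intro h
      exact absurd (mem_univ _) h
  rw [tw_apply E R v, map_sum]
  conv_rhs => rw [← sum_pr h2 hR0 v]
  refine Finset.sum_congr rfl fun z _ => ?_
  rw [map_smul, hDpr, smul_smul, sK_mul_self, one_smul]

end two

section mats

variable {ι : Type} [Fintype ι] [DecidableEq ι]

/-- The change of a matrix under a change `q` of basis: endomorphisms `q M q⁻¹` for
`c = (false, false)`, sesquilinear forms with respect to the endomorphism `σ` of the field for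
`c = (true, false)` and for `c = (false, true)` (on the dual), dual endomorphisms for
`c = (true, true)`. -/
def move (σ : K →+* K) (c : Bool × Bool) (q : (Matrix ι ι K)ˣ) (M : Matrix ι ι K) :
    Matrix ι ι K :=
  (if c.1 then (q⁻¹.1.map σ).transpose else q.1) * M *
    (if c.2 then (q.1.map σ).transpose else q⁻¹.1)

/-- the rep on one of the two sides -/
def side (σ : K →+* K) (b : Bool) (q : Matrix ι ι K) : Matrix ι ι K :=
  if b then (q.map σ).transpose else q

theorem sK_map (σ : K →+* K) (x : ZMod 2) : σ (sK K x) = sK K x := by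
  unfold sK
  exact map_intCast σ _

variable {H : Type} [AddCommGroup H] [Module (ZMod 2) H] [Fintype H]

/-- the matrix of a projection -/
noncomputable def prM (ρ : H → Matrix ι ι K) (z : Chr H) : Matrix ι ι K :=
  (Fintype.card H : K)⁻¹ • ∑ h, sK K (z h) • ρ h

theorem prM_side (σ : K →+* K) (b : Bool) (ρ : H → Matrix ι ι K) (z : Chr H) :
    prM (fun h => side σ b (ρ h)) z = side σ b (prM ρ z) := by
  cases b with
  | false => rfl
  | true =>
    refine Matrix.ext fun i j => ?_
    show ((Fintype.card H : K)⁻¹ • ∑ h, sK K (z h) • ((ρ h).map σ).transpose) i j =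
      σ (((Fintype.card H : K)⁻¹ • ∑ h, sK K (z h) • ρ h) j i)
    rw [Matrix.smul_apply, Matrix.smul_apply, Matrix.sum_apply, Matrix.sum_apply, smul_eq_mul,
      smul_eq_mul, map_mul, map_inv₀, map_natCast, map_sum]
    congr 1
    refine Finset.sum_congr rfl fun h _ => ?_
    show sK K (z h) * σ (ρ h j i) = σ (sK K (z h) * ρ h j i)
    rw [map_mul, sK_map]

theorem pr_toLin (ρ : H → Matrix ι ι K) (z : Chr H) :
    pr (fun h => Matrix.toLin' (ρ h)) z = Matrix.toLin' (prM ρ z) := by
  unfold pr prM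
  rw [map_smul, map_sum]
  congr 1
  exact Finset.sum_congr rfl fun h _ => (map_smul _ _ _).symm

theorem side_zero (σ : K →+* K) (b : Bool) : side σ b (0 : Matrix ι ι K) = 0 := by
  cases b with
  | false => rfl
  | true =>
    refine Matrix.ext fun i j => ?_
    exact map_zero σ

/-- the matrix of the twist -/
noncomputable def twM (E : Chr H → ZMod 2) (ρ : H → Matrix ι ι K) : Matrix ι ι K :=
  ∑ z : Chr H, sK K (E z) • prM ρ z

theorem tw_toLin (E : Chr H → ZMod 2) (ρ : H → Matrix ι ι K) :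
    tw E (fun h => Matrix.toLin' (ρ h)) = Matrix.toLin' (twM E ρ) := by
  unfold tw twM
  rw [map_sum]
  refine Finset.sum_congr rfl fun z _ => ?_
  rw [map_smul, pr_toLin]

theorem twM_side (σ : K →+* K) (b : Bool) (E : Chr H → ZMod 2) (ρ : H → Matrix ι ι K) :
    twM E (fun h => side σ b (ρ h)) = side σ b (twM E ρ) := by
  unfold twM
  rw [Finset.sum_congr rfl fun z _ => by rw [prM_side]]
  cases b with
  | false => rfl
  | true =>
    refine Matrix.ext fun i j => ?_
    show (∑ z, sK K (E z) • side σ true (prM ρ z)) i j =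
      σ ((∑ z, sK K (E z) • prM ρ z) j i)
    rw [Matrix.sum_apply, Matrix.sum_apply, map_sum]
    refine Finset.sum_congr rfl fun z _ => ?_
    show sK K (E z) * σ (prM ρ z j i) = σ (sK K (E z) * prM ρ z j i)
    rw [map_mul, sK_map]

end mats

/-- Gates computing functions of the isomorphism class of a vector space with endomorphisms and
sesquilinear forms, the symmetries of which are given by a linear representation. -/
theorem inv_classG (h2 : (2 : K) ≠ 0) {ι : Type} [Fintype ι] [DecidableEq ι] [Nonempty ι]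
    {Y : Type} (σ : K →+* K) (c : Y → Bool × Bool) (act : Γ → X → X)
    (H : Submodule (ZMod 2) Γ) (M : X → Y → Matrix ι ι K)
    (ρ : H → (Matrix ι ι K)ˣ) (hρ : ∀ h h', ρ (h + h') = ρ h * ρ h')
    (hsym : ∀ (h : H) x y, M (act (h : Γ) x) y = move σ (c y) (ρ h) (M x y)) :
    ∃ C : Finset (Chr H), C.Nonempty ∧ C.card ≤ Fintype.card ι ∧ ∀ v : X → V,
      (∀ x x', (∃ q : (Matrix ι ι K)ˣ, ∀ y, M x' y = move σ (c y) q (M x y)) → v x = v x') →
      InvG S act H C {f | ∃ y i j, f = fun x => M x y i j} v := by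
  classical
  have hρ0 : ρ 0 = 1 := by
    have h1 := hρ 0 0
    rw [add_zero] at h1
    exact (mul_eq_left.mp h1.symm)
  have hself : ∀ h : H, h + h = 0 := by
    intro h
    have h3 : h + h = (2 : ZMod 2) • h := (two_smul (ZMod 2) h).symm
    have h4 : (2 : ZMod 2) = 0 := rfl
    rw [h3, h4, zero_smul]
  have hinv : ∀ h : H, (ρ h)⁻¹ = ρ h := by
    intro h
    rw [inv_eq_iff_mul_eq_one, ← hρ, hself, hρ0]
  -- the representations of the two sides
  let RR : Bool → H → (ι → K) →ₗ[K] (ι → K) := fun b h => Matrix.toLin' (side σ b (ρ h).1)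
  have hcommρ : ∀ h h' : H, (ρ h).1 * (ρ h').1 = (ρ h').1 * (ρ h).1 := by
    intro h h'
    rw [← Units.val_mul, ← Units.val_mul, ← hρ, ← hρ, add_comm]
  have hRR : ∀ b, ∀ h h' v, RR b (h + h') v = RR b h (RR b h' v) := by
    intro b h h' v
    show Matrix.toLin' (side σ b (ρ (h + h')).1) v =
      Matrix.toLin' (side σ b (ρ h).1) (Matrix.toLin' (side σ b (ρ h').1) v)
    rw [← Matrix.toLin'_mul_apply]
    congr 2
    cases b with
    | false =>
      show (ρ (h + h')).1 = (ρ h).1 * (ρ h').1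
      rw [hρ, Units.val_mul]
    | true =>
      show ((ρ (h + h')).1.map σ).transpose = ((ρ h).1.map σ).transpose * ((ρ h').1.map σ).transpose
      rw [← Matrix.transpose_mul, ← Matrix.map_mul, ← hcommρ, hρ, Units.val_mul]
  have hRR0 : ∀ b, ∀ v, RR b 0 v = v := by
    intro b v
    show Matrix.toLin' (side σ b (ρ 0).1) v = v
    have h1 : side σ b (ρ 0).1 = 1 := by
      rw [hρ0, Units.val_one]
      cases b with
      | false => rfl
      | true =>
        show ((1 : Matrix ι ι K).map σ).transpose = 1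
        rw [Matrix.map_one σ (map_zero σ) (map_one σ), Matrix.transpose_one]
    rw [h1, Matrix.toLin'_one]
    rfl
  let R : H → (ι → K) →ₗ[K] (ι → K) := fun h => Matrix.toLin' (ρ h).1
  have hprne : ∀ b z, pr (RR b) z ≠ 0 → pr R z ≠ 0 := by
    intro b z hz h0
    refine hz ?_
    have h1 : pr R z = Matrix.toLin' (prM (fun h => (ρ h).1) z) := pr_toLin _ z
    have h3 : prM (fun h => (ρ h).1) z = 0 := by
      rw [h1] at h0
      exact (LinearEquiv.map_eq_zero_iff _).mp h0
    have h4 : pr (RR b) z = Matrix.toLin' (prM (fun h => side σ b (ρ h).1) z) := pr_toLin _ z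
    rw [h4, prM_side, h3, side_zero, map_zero]
  refine ⟨univ.filter fun z => pr R z ≠ 0, ?_, ?_, ?_⟩
  · by_contra hn
    rw [Finset.not_nonempty_iff_eq_empty, Finset.filter_eq_empty_iff] at hn
    have h1 := sum_pr h2 (hRR0 false) (fun _ => (1 : K))
    rw [Finset.sum_eq_zero (fun z _ => by
      have h3 : pr (RR false) z = 0 := not_not.mp (hn (mem_univ z))
      rw [h3, LinearMap.zero_apply])] at h1
    have h3 := congrFun h1 (Classical.arbitrary ι)
    exact zero_ne_one h3
  · have h1 := card_le_finrank (R := R) h2 (hRR false)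
    rw [Fintype.card_subtype, Module.finrank_fintype_fun_eq_card] at h1
    refine le_trans (le_of_eq ?_) h1
    congr 1
  · intro v hv B x hx τ hE hgood e he t
    obtain ⟨E, hE0, hEE⟩ := exists_E {z : Chr H | pr R z ≠ 0} (B.comp H.subtype) τ
      (fun z hz z' hz' l hl hl' => hgood z (Finset.mem_filter.mpr ⟨mem_univ _, hz⟩) z'
        (Finset.mem_filter.mpr ⟨mem_univ _, hz'⟩) l hl hl') e he
    let D : Matrix ι ι K := twM E fun h => (ρ h).1
    have hDD : D * D = 1 := by
      have h1 : ∀ v, (Matrix.toLin' (D * D)) v = v := by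
        intro v
        rw [Matrix.toLin'_mul_apply]
        have h3 : Matrix.toLin' D = tw E (RR false) := (tw_toLin E _).symm
        rw [h3]
        exact tw_tw h2 E (hRR0 false) (hRR false) v
      have h3 : Matrix.toLin' (D * D) = LinearMap.id := LinearMap.ext h1
      rw [← Matrix.toLin'_one] at h3
      exact (Matrix.toLin').injective h3
    let q : (Matrix ι ι K)ˣ := ⟨D, D, hDD, hDD⟩
    refine (hv _ _ ⟨q, fun y => ?_⟩).symm
    have hmv : ∀ (q : (Matrix ι ι K)ˣ), q⁻¹ = q → ∀ (c : Bool × Bool) (A : Matrix ι ι K),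
        move σ c q A = side σ c.1 q.1 * A * side σ c.2 q.1 := by
      intro q hq c A
      unfold move side
      rw [hq]
    have hqq : q⁻¹ = q := Units.ext rfl
    rw [hmv q hqq]
    have h3 : ∀ v, Matrix.toLin' (M (x (t + e)) y) v =
        tw E (RR (c y).1) (Matrix.toLin' (M (x t) y) (tw E (RR (c y).2) v)) := by
      intro v
      refine twist2 h2 (hRR0 (c y).1) (hRR (c y).1) (hRR0 (c y).2) (hRR (c y).2)
        (B.comp H.subtype) (fun t => Matrix.toLin' (M (x t) y)) ?_ τ ?_ e E ?_ t v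
      · intro t h u
        show Matrix.toLin' (M (x (t + B (h : Γ))) y) u = Matrix.toLin' (side σ (c y).1 (ρ h).1)
          (Matrix.toLin' (M (x t) y) (Matrix.toLin' (side σ (c y).2 (ρ h).1) u))
        rw [hx, hsym, hmv _ (hinv h), Matrix.toLin'_mul, Matrix.toLin'_mul]
        rfl
      · intro μ u
        have h1 : (fun t => μ (Matrix.toLin' (M (x t) y) u)) =
            fun t => ((μ.comp (LinearMap.applyₗ u)).comp
              (Matrix.toLin' (R := K) (m := ι) (n := ι)).toLinearMap) (M (x t) y) := rfl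
        rw [h1]
        exact functional_mem _ (fun t => M (x t) y) (fun i j => hE _ ⟨y, i, j, rfl⟩) _
      · intro z z' hz hz' l hl hadj
        exact hEE z (hprne _ z hz) z' (hprne _ z' hz') l hl hadj
    have h4 : ∀ b, tw E (RR b) = Matrix.toLin' (side σ b D) := by
      intro b
      have h5 : tw E (RR b) = Matrix.toLin' (twM E fun h => side σ b (ρ h).1) := tw_toLin E _
      rw [h5, twM_side]
    have h5 : Matrix.toLin' (M (x (t + e)) y) =
        Matrix.toLin' (side σ (c y).1 D * M (x t) y * side σ (c y).2 D) := by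
      refine LinearMap.ext fun v => ?_
      rw [h3, h4, h4, Matrix.toLin'_mul_apply, Matrix.toLin'_mul_apply]
    exact (Matrix.toLin').injective h5

end Pool.Agent.TH658.Sd
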