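import Pool.Agent.TH658.Sd.Cnt

set_option autoImplicit false
set_option linter.unusedSectionVars false

/-! One wiring good for all the gates. -/

namespace Pool.Agent.TH658.Sd

open Finset Pool.Agent.H30R2.PS Pool.Agent.TH658.Eq

variable {N : ℕ} [NeZero N]

theorem dot_BW (w : WR N) (l : SL N → ZMod 2) (h : GA N) :
    dot l (BW w h) = ∑ i, h.1 i * (l (i, false) + l (i, true)) +
      ∑ j, h.2.1 j * (l (j - 1, false) + l (j, true)) +
      ∑ v, h.2.2 v * (l (w.1 v, false) + l (w.2 v, true)) := by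
  unfold dot
  have h1 : ∀ s : SL N, l s * (BW w h) s =
      l s * h.1 s.1 + l s * h.2.1 (cl s) + l s * h.2.2 (vr w s) := by
    intro s
    show l s * (h.1 s.1 + h.2.1 (cl s) + h.2.2 (vr w s)) = _
    ring
  rw [Finset.sum_congr rfl fun s _ => h1 s, Finset.sum_add_distrib, Finset.sum_add_distrib]
  congr 1
  · congr 1
    · rw [Fintype.sum_prod_type]
      refine Finset.sum_congr rfl fun i _ => ?_
      rw [Fintype.sum_bool]
      ring
    · rw [Fintype.sum_prod_type]
      have h2 : ∀ i : Fin N, ∑ b : Bool, l (i, b) * h.2.1 (cl (i, b)) =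
          h.2.1 i * l (i, true) + h.2.1 (i + 1) * l (i, false) := by
        intro i
        rw [Fintype.sum_bool]
        show l (i, true) * h.2.1 i + l (i, false) * h.2.1 (i + 1) = _
        ring
      have h3 : ∀ j : Fin N, h.2.1 j * (l (j - 1, false) + l (j, true)) =
          h.2.1 j * l (j, true) + h.2.1 j * l (j - 1, false) := by
        intro j
        ring
      rw [Finset.sum_congr rfl fun i _ => h2 i, Finset.sum_add_distrib,
        Finset.sum_congr rfl fun j _ => h3 j, Finset.sum_add_distrib]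
      congr 1
      rw [← Equiv.sum_comp (Equiv.addRight (1 : Fin N))
        (fun j => h.2.1 j * l (j - 1, false))]
      refine Finset.sum_congr rfl fun i _ => ?_
      show h.2.1 (i + 1) * l (i, false) = h.2.1 (i + 1) * l (i + 1 - 1, false)
      rw [add_sub_cancel_right]
  · rw [Fintype.sum_prod_type]
    have h2 : ∀ i : Fin N, ∑ b : Bool, l (i, b) * h.2.2 (vr w (i, b)) =
        h.2.2 (w.2.symm i) * l (i, true) + h.2.2 (w.1.symm i) * l (i, false) := by
      intro i
      rw [Fintype.sum_bool]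
      show l (i, true) * h.2.2 (w.2.symm i) + l (i, false) * h.2.2 (w.1.symm i) = _
      ring
    have h3 : ∀ v : Fin N, h.2.2 v * (l (w.1 v, false) + l (w.2 v, true)) =
        h.2.2 v * l (w.2 v, true) + h.2.2 v * l (w.1 v, false) := by
      intro j
      ring
    rw [Finset.sum_congr rfl fun i _ => h2 i, Finset.sum_add_distrib,
      Finset.sum_congr rfl fun j _ => h3 j, Finset.sum_add_distrib]
    congr 1
    · rw [← Equiv.sum_comp w.2 (fun i => h.2.2 (w.2.symm i) * l (i, true))]
      refine Finset.sum_congr rfl fun i _ => ?_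
      rw [w.2.symm_apply_apply]
    · rw [← Equiv.sum_comp w.1 (fun i => h.2.2 (w.1.symm i) * l (i, false))]
      refine Finset.sum_congr rfl fun i _ => ?_
      rw [w.1.symm_apply_apply]

theorem dot_row (w : WR N) (l : SL N → ZMod 2) (i : Fin N) :
    dot l (BW w (Pi.single i 1, 0, 0)) = l (i, false) + l (i, true) := by
  classical
  rw [dot_BW, Finset.sum_eq_single i, Finset.sum_eq_zero, Finset.sum_eq_zero]
  · show (Pi.single i (1 : ZMod 2) : Fin N → ZMod 2) i * _ + 0 + 0 = _
    rw [Pi.single_eq_same]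
    ring
  · intro v _
    show (0 : ZMod 2) * _ = 0
    ring
  · intro v _
    show (0 : ZMod 2) * _ = 0
    ring
  · intro j _ hj
    show (Pi.single i (1 : ZMod 2) : Fin N → ZMod 2) j * _ = 0
    rw [Pi.single_eq_of_ne hj, zero_mul]
  · intro h
    exact absurd (mem_univ _) h

theorem dot_col (w : WR N) (l : SL N → ZMod 2) (j : Fin N) :
    dot l (BW w (0, Pi.single j 1, 0)) = l (j - 1, false) + l (j, true) := by
  classical
  rw [dot_BW, Finset.sum_eq_zero, Finset.sum_eq_single j, Finset.sum_eq_zero]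
  · show 0 + (Pi.single j (1 : ZMod 2) : Fin N → ZMod 2) j * _ + 0 = _
    rw [Pi.single_eq_same]
    ring
  · intro v _
    show (0 : ZMod 2) * _ = 0
    ring
  · intro i _ hi
    show (Pi.single j (1 : ZMod 2) : Fin N → ZMod 2) i * _ = 0
    rw [Pi.single_eq_of_ne hi, zero_mul]
  · intro h
    exact absurd (mem_univ _) h
  · intro v _
    show (0 : ZMod 2) * _ = 0
    ring

theorem dot_var (w : WR N) (l : SL N → ZMod 2) (v : Fin N) :
    dot l (BW w (0, 0, Pi.single v 1)) = l (w.1 v, false) + l (w.2 v, true) := by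
  classical
  rw [dot_BW, Finset.sum_eq_zero, Finset.sum_eq_zero, Finset.sum_eq_single v]
  · show 0 + 0 + (Pi.single v (1 : ZMod 2) : Fin N → ZMod 2) v * _ = _
    rw [Pi.single_eq_same]
    ring
  · intro i _ hi
    show (Pi.single v (1 : ZMod 2) : Fin N → ZMod 2) i * _ = 0
    rw [Pi.single_eq_of_ne hi, zero_mul]
  · intro h
    exact absurd (mem_univ _) h
  · intro v _
    show (0 : ZMod 2) * _ = 0
    ring
  · intro v _
    show (0 : ZMod 2) * _ = 0
    ring

/-- a function which does not change under the rotation -/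
theorem const_of_rot (f : Fin N → ZMod 2) (h : ∀ i, f (i - 1) = f i) (i j : Fin N) : f i = f j := by
  obtain ⟨n, rfl⟩ : ∃ n, N = n + 1 := ⟨N - 1, (Nat.succ_pred_eq_of_pos (NeZero.pos N)).symm⟩
  have h1 : ∀ i : Fin (n + 1), f i = f 0 := by
    intro i
    induction i using Fin.induction with
    | zero => rfl
    | succ i ih =>
      rw [← h, ← ih]
      congr 1
      rw [sub_eq_iff_eq_add, Fin.coeSucc_eq_succ]
  rw [h1 i, h1 j]

/-- the solutions of the equations of the rows and columns -/
theorem two_sol (l l' : SL N → ZMod 2)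
    (hr : ∀ i, l (i, false) + l (i, true) = l' (i, false) + l' (i, true))
    (hc : ∀ j, l (j - 1, false) + l (j, true) = l' (j - 1, false) + l' (j, true)) :
    l' = l ∨ l' = l + 1 := by
  have h1 : ∀ a b c d : ZMod 2, a + b = c + d → b + d = a + c := by decide
  have h2 : ∀ i, l (i, true) + l' (i, true) = l (i, false) + l' (i, false) := fun i =>
    h1 _ _ _ _ (hr i)
  have h3 : ∀ j, l (j, true) + l' (j, true) = l (j - 1, false) + l' (j - 1, false) := fun j =>
    h1 _ _ _ _ (hc j)
  have h4 := const_of_rot (fun i => l (i, false) + l' (i, false)) (fun i => by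
    show l (i - 1, false) + l' (i - 1, false) = l (i, false) + l' (i, false)
    rw [← h3, h2])
  have h5 : ∀ a : ZMod 2, a = 0 ∨ a = 1 := by decide
  have h6 : ∀ a b : ZMod 2, a + b = 0 → b = a := by decide
  have h7 : ∀ a b : ZMod 2, a + b = 1 → b = a + 1 := by decide
  rcases h5 (l (0, false) + l' (0, false)) with h | h
  · left
    funext s
    obtain ⟨i, b⟩ := s
    rcases b with _ | _
    · exact h6 _ _ ((h4 i 0).trans h)
    · exact h6 _ _ ((h2 i).trans ((h4 i 0).trans h))
  · right
    funext s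
    obtain ⟨i, b⟩ := s
    rcases b with _ | _
    · exact h7 _ _ ((h4 i 0).trans h)
    · exact h7 _ _ ((h2 i).trans ((h4 i 0).trans h))

open Classical in
/-- the wirings bad for a functional -/
theorem bad_functional (ψ : Chr (GA N)) (τ : ℕ) (hτ : 8 * τ ≤ N) :
    (univ.filter fun w : WR N => ∃ l : SL N → ZMod 2, τ < wt l ∧ wt l ≤ 2 * τ ∧
      ∀ h, dot l (BW w h) = ψ h).card * 2 ^ τ ≤ Fintype.card (WR N) := by
  rcases Finset.eq_empty_or_nonempty (univ.filter fun w : WR N => ∃ l : SL N → ZMod 2,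
    τ < wt l ∧ wt l ≤ 2 * τ ∧ ∀ h, dot l (BW w h) = ψ h) with h0 | ⟨w0, hw0⟩
  · rw [h0, Finset.card_empty, zero_mul]
    exact Nat.zero_le _
  · obtain ⟨l0, _, _, hl0⟩ := (Finset.mem_filter.mp hw0).2
    let V : (SL N → ZMod 2) → Finset (WR N) := fun l =>
      if τ < wt l ∧ wt l ≤ 2 * τ then univ.filter fun w : WR N =>
        ∀ v, l (w.1 v, false) + l (w.2 v, true) = ψ (0, 0, Pi.single v 1) else ∅
    have hV : ∀ l, (V l).card * 2 ^ (τ + 1) ≤ Fintype.card (WR N) := by
      intro l
      by_cases hl : τ < wt l ∧ wt l ≤ 2 * τ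
      · have h1 : V l = univ.filter fun w : WR N =>
          ∀ v, l (w.1 v, false) + l (w.2 v, true) = ψ (0, 0, Pi.single v 1) := if_pos hl
        rw [h1]
        exact card_vars l _ τ hl.1 hl.2 hτ
      · have h1 : V l = ∅ := if_neg hl
        rw [h1, Finset.card_empty, zero_mul]
        exact Nat.zero_le _
    have hsub : (univ.filter fun w : WR N => ∃ l : SL N → ZMod 2, τ < wt l ∧ wt l ≤ 2 * τ ∧
        ∀ h, dot l (BW w h) = ψ h) ⊆ V l0 ∪ V (l0 + 1) := by
      intro w hw
      obtain ⟨l, h1, h2, h3⟩ := (Finset.mem_filter.mp hw).2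
      have hmem : w ∈ V l := by
        show w ∈ (if τ < wt l ∧ wt l ≤ 2 * τ then univ.filter fun w : WR N =>
          ∀ v, l (w.1 v, false) + l (w.2 v, true) = ψ (0, 0, Pi.single v 1) else ∅)
        rw [if_pos ⟨h1, h2⟩, Finset.mem_filter]
        refine ⟨mem_univ _, fun v => ?_⟩
        rw [← h3, dot_var]
      rcases two_sol l0 l (fun i => by rw [← dot_row w0, ← dot_row w, hl0, h3])
        (fun j => by rw [← dot_col w0, ← dot_col w, hl0, h3]) with h | h
      · rw [h] at hmem
        exact Finset.mem_union_left _ hmem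
      · rw [h] at hmem
        exact Finset.mem_union_right _ hmem
    have h1 := Finset.card_le_card hsub
    have h2 := Finset.card_union_le (V l0) (V (l0 + 1))
    have h3 := hV l0
    have h4 := hV (l0 + 1)
    rw [pow_succ] at h3 h4
    nlinarith [Nat.mul_le_mul_right (2 ^ τ) (h1.trans h2)]

section ext

variable {Γ : Type} [AddCommGroup Γ] [Module (ZMod 2) Γ] [Fintype Γ]

theorem card_ann (H : Submodule (ZMod 2) Γ) :
    Nat.card H.dualAnnihilator = H.toAddSubgroup.index := by
  have h1 := Subspace.finrank_add_finrank_dualAnnihilator_eq H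
  have h2 : Nat.card H * Nat.card H.dualAnnihilator = Nat.card Γ := by
    rw [Module.natCard_eq_pow_finrank (K := ZMod 2) (V := H),
      Module.natCard_eq_pow_finrank (K := ZMod 2) (V := H.dualAnnihilator),
      Module.natCard_eq_pow_finrank (K := ZMod 2) (V := Γ), ← pow_add, h1]
  have h3 := H.toAddSubgroup.index_mul_card
  have h4 : Nat.card H.toAddSubgroup = Nat.card H := rfl
  rw [h4] at h3
  have h5 : 0 < Nat.card H := Nat.card_pos
  refine Nat.eq_of_mul_eq_mul_right h5 ?_
  rw [h3, mul_comm]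
  exact h2

open Classical in
/-- the number of the extensions of a character -/
theorem card_ext (H : Submodule (ZMod 2) Γ) (χ : Chr H) :
    (univ.filter fun ψ : Chr Γ => ∀ h : H, ψ h = χ h).card ≤ H.toAddSubgroup.index := by
  rcases Finset.eq_empty_or_nonempty (univ.filter fun ψ : Chr Γ => ∀ h : H, ψ h = χ h)
    with h0 | ⟨ψ0, hψ0⟩
  · rw [h0, Finset.card_empty]
    exact Nat.zero_le _
  · have h1 := (Finset.mem_filter.mp hψ0).2
    rw [← card_ann, ← Fintype.card_coe, ← Nat.card_eq_fintype_card]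
    refine Nat.card_le_card_of_injective (fun ψ => ⟨ψ.1 + ψ0, ?_⟩) ?_
    · rw [Submodule.mem_dualAnnihilator]
      intro h hh
      have h2 := (Finset.mem_filter.mp ψ.2).2 ⟨h, hh⟩
      have h3 := h1 ⟨h, hh⟩
      show ψ.1 h + ψ0 h = 0
      rw [h2, h3]
      exact zmod2_add_self _
    · intro ψ ψ' h
      have h2 : ψ.1 + ψ0 = ψ'.1 + ψ0 := congrArg Subtype.val h
      exact Subtype.ext (add_right_cancel h2)

end ext

open Classical in
/-- One wiring good for all the pairs of characters of a family of sets of characters. -/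
theorem exists_goodG {J : Type} [Fintype J] (Hs : J → Submodule (ZMod 2) (GA N))
    (C : ∀ j, Finset (Chr (Hs j))) (τ : ℕ) (hτ : 8 * τ ≤ N)
    (hs : ∑ j, (C j).card ^ 2 * (Hs j).toAddSubgroup.index < 2 ^ τ) :
    ∃ w : WR N, ∀ j, GoodG (Hs j) (C j) (BW w) τ := by
  by_contra hcon
  rw [not_exists] at hcon
  let Bad : Chr (GA N) → Finset (WR N) := fun ψ => univ.filter fun w : WR N =>
    ∃ l : SL N → ZMod 2, τ < wt l ∧ wt l ≤ 2 * τ ∧ ∀ h, dot l (BW w h) = ψ h
  have hBad : ∀ ψ, (Bad ψ).card * 2 ^ τ ≤ Fintype.card (WR N) := fun ψ =>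
    bad_functional ψ τ hτ
  let Ex : (j : J) → Chr (Hs j) → Finset (Chr (GA N)) := fun j χ =>
    univ.filter fun ψ : Chr (GA N) => ∀ h : Hs j, ψ h = χ h
  have hEx : ∀ j χ, (Ex j χ).card ≤ (Hs j).toAddSubgroup.index := fun j χ =>
    card_ext (Hs j) χ
  have hcov : (univ : Finset (WR N)) ⊆ univ.biUnion fun j : J =>
      ((C j) ×ˢ (C j)).biUnion fun z => (Ex j (z.1 + z.2)).biUnion Bad := by
    intro w _
    have h1 := hcon w
    rw [not_forall] at h1
    obtain ⟨j, h1⟩ := h1
    unfold GoodG at h1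
    push Not at h1
    obtain ⟨z, hz, z', hz', l, hl, hl', h2⟩ := h1
    refine Finset.mem_biUnion.mpr ⟨j, mem_univ _, Finset.mem_biUnion.mpr ⟨(z, z'),
      Finset.mem_product.mpr ⟨hz, hz'⟩, Finset.mem_biUnion.mpr ?_⟩⟩
    let ψ : Chr (GA N) :=
      { toFun := fun h => dot l (BW w h)
        map_add' := fun h h' => by rw [map_add, dot_add]
        map_smul' := fun c h => by
          rw [map_smul, dot_comm, smul_dot, dot_comm]
          rfl }
    refine ⟨ψ, Finset.mem_filter.mpr ⟨mem_univ _, fun h => h2 h⟩,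
      Finset.mem_filter.mpr ⟨mem_univ _, l, hl, hl', fun h => rfl⟩⟩
  have hW : 0 < Fintype.card (WR N) := Fintype.card_pos
  have h1 : Fintype.card (WR N) * 2 ^ τ ≤
      (∑ j, (C j).card ^ 2 * (Hs j).toAddSubgroup.index) * Fintype.card (WR N) := by
    calc Fintype.card (WR N) * 2 ^ τ = (univ : Finset (WR N)).card * 2 ^ τ := by
          rw [Finset.card_univ]
      _ ≤ (univ.biUnion fun j : J => ((C j) ×ˢ (C j)).biUnion fun z =>
          (Ex j (z.1 + z.2)).biUnion Bad).card * 2 ^ τ :=
          Nat.mul_le_mul_right _ (Finset.card_le_card hcov)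
      _ ≤ (∑ j, ∑ z ∈ (C j) ×ˢ (C j), ∑ ψ ∈ Ex j (z.1 + z.2), (Bad ψ).card) * 2 ^ τ := by
          refine Nat.mul_le_mul_right _ (Finset.card_biUnion_le.trans
            (Finset.sum_le_sum fun j _ => Finset.card_biUnion_le.trans
              (Finset.sum_le_sum fun z _ => Finset.card_biUnion_le)))
      _ = ∑ j, ∑ z ∈ (C j) ×ˢ (C j), ∑ ψ ∈ Ex j (z.1 + z.2), (Bad ψ).card * 2 ^ τ := by
          rw [Finset.sum_mul]
          refine Finset.sum_congr rfl fun j _ => ?_
          rw [Finset.sum_mul]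
          refine Finset.sum_congr rfl fun z _ => ?_
          rw [Finset.sum_mul]
      _ ≤ ∑ j, ∑ z ∈ (C j) ×ˢ (C j), ∑ _ψ ∈ Ex j (z.1 + z.2), Fintype.card (WR N) :=
          Finset.sum_le_sum fun j _ => Finset.sum_le_sum fun z _ =>
            Finset.sum_le_sum fun ψ _ => hBad ψ
      _ ≤ ∑ j, ∑ _z ∈ (C j) ×ˢ (C j), (Hs j).toAddSubgroup.index * Fintype.card (WR N) := by
          refine Finset.sum_le_sum fun j _ => Finset.sum_le_sum fun z _ => ?_
          rw [Finset.sum_const, smul_eq_mul]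
          exact Nat.mul_le_mul_right _ (hEx j _)
      _ = (∑ j, (C j).card ^ 2 * (Hs j).toAddSubgroup.index) * Fintype.card (WR N) := by
          rw [Finset.sum_mul]
          refine Finset.sum_congr rfl fun j _ => ?_
          rw [Finset.sum_const, Finset.card_product, smul_eq_mul]
          ring
  have h2 : 2 ^ τ ≤ ∑ j, (C j).card ^ 2 * (Hs j).toAddSubgroup.index := by
    refine Nat.le_of_mul_le_mul_left ?_ hW
    rw [mul_comm (Fintype.card (WR N)) (∑ j, _)]
    exact h1
  omega

end Pool.Agent.TH658.Sd
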