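import Pool.Agent.TH658.Sd.Cyc

set_option autoImplicit false
set_option linter.unusedSectionVars false

/-! Tuples of matrices, sign changes and the family of hard tuples. -/

namespace Pool.Agent.TH658.Sd

open Finset Pool.Agent.H30R2.PS Pool.Agent.TH658.Eq

/-- Tuples of `m` integral `n × n` matrices. -/
abbrev Tup (n m : ℕ) := Fin m → Matrix (Fin n) (Fin n) ℤ

/-- Sign changes of rows, of columns and of variables. -/
abbrev Flips (n m : ℕ) := (Fin n → ZMod 2) × (Fin n → ZMod 2) × (Fin m → ZMod 2)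

/-- `(α, β, γ)` maps the tuple `A` to the tuple with entries
`(-1)^(α i + β j + γ v) * (A v) i j`. -/
def flip {n m : ℕ} (h : Flips n m) (A : Tup n m) : Tup n m :=
  fun v => Matrix.of fun i j => (if h.1 i + h.2.1 j + h.2.2 v = 0 then 1 else -1) * A v i j

/-- The symbolic matrix `∑ x_v A_v`. -/
noncomputable def symb {n m : ℕ} (A : Tup n m) :
    Matrix (Fin n) (Fin n) (MvPolynomial (Fin m) ℚ) :=
  Matrix.of fun i j => ∑ v, MvPolynomial.C ((A v i j : ℤ) : ℚ) * MvPolynomial.X v

/-- The rank of the symbolic matrix over the field of rational functions. -/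
noncomputable def symRank {n m : ℕ} (A : Tup n m) : ℕ :=
  ((symb A).map (algebraMap _ (FractionRing (MvPolynomial (Fin m) ℚ)))).rank

/-- The span of the functions of `A` which depend only on the entries in at most `d` slices
(rows, columns or variables). -/
def Local (K : Type) [Field K] (n m d : ℕ) : Submodule K (Tup n m → K) :=
  Submodule.span K {g | ∃ (R C : Finset (Fin n)) (V : Finset (Fin m)),
    R.card + C.card + V.card ≤ d ∧
    ∀ A B : Tup n m, (∀ v i j, i ∈ R ∨ j ∈ C ∨ v ∈ V → A v i j = B v i j) → g A = g B}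

/-- Entries `0, 1, -1`; at most two nonzero entries in each row and in each column of the
symbolic matrix (counted with variables), and at most `2 k` entries with a given variable. -/
def Sparse {n m : ℕ} (k : ℕ) (A : Tup n m) : Prop :=
  (∀ v i j, A v i j = 0 ∨ A v i j = 1 ∨ A v i j = -1) ∧
  (∀ i, (univ.filter fun p : Fin m × Fin n => A p.1 i p.2 ≠ 0).card ≤ 2) ∧
  (∀ j, (univ.filter fun p : Fin m × Fin n => A p.1 p.2 j ≠ 0).card ≤ 2) ∧
  (∀ v, (univ.filter fun p : Fin n × Fin n => A v p.1 p.2 ≠ 0).card ≤ 2 * k)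

section acts

variable {n m : ℕ}

theorem flip_apply (h : Flips n m) (A : Tup n m) (v : Fin m) (i j : Fin n) :
    flip h A v i j = sg (h.1 i + h.2.1 j + h.2.2 v) * A v i j := rfl

theorem flip_zero (A : Tup n m) : flip 0 A = A := by
  funext v
  refine Matrix.ext fun i j => ?_
  rw [flip_apply]
  have h1 : sg ((0 : Flips n m).1 i + (0 : Flips n m).2.1 j + (0 : Flips n m).2.2 v) = 1 := rfl
  rw [h1, one_mul]

theorem flip_add (h h' : Flips n m) (A : Tup n m) : flip (h + h') A = flip h (flip h' A) := by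
  funext v
  refine Matrix.ext fun i j => ?_
  rw [flip_apply, flip_apply, flip_apply, ← mul_assoc, ← sg_add]
  congr 2
  show (h.1 i + h'.1 i) + (h.2.1 j + h'.2.1 j) + (h.2.2 v + h'.2.2 v) =
    h.1 i + h.2.1 j + h.2.2 v + (h'.1 i + h'.2.1 j + h'.2.2 v)
  ring

end acts

variable {n m N k : ℕ} [NeZero N]

/-- the inclusion of the groups -/
def iota (e : Fin N × Fin k → Fin n) (f : Fin N → Fin m) : GA N →+ Flips n m where
  toFun h := (fun i => ∑ p : Fin N × Fin k, if e p = i then h.1 p.1 else 0,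
    fun j => ∑ p : Fin N × Fin k, if e p = j then h.2.1 p.1 else 0,
    fun v => ∑ u : Fin N, if f u = v then h.2.2 u else 0)
  map_zero' := by
    refine Prod.ext ?_ (Prod.ext ?_ ?_) <;> funext i
    · show (∑ p : Fin N × Fin k, if e p = i then (0 : ZMod 2) else 0) = 0
      exact Finset.sum_eq_zero fun p _ => ite_self _
    · show (∑ p : Fin N × Fin k, if e p = i then (0 : ZMod 2) else 0) = 0
      exact Finset.sum_eq_zero fun p _ => ite_self _
    · show (∑ p : Fin N, if f p = i then (0 : ZMod 2) else 0) = 0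
      exact Finset.sum_eq_zero fun p _ => ite_self _
  map_add' h h' := by
    refine Prod.ext ?_ (Prod.ext ?_ ?_) <;> funext i
    · show (∑ p : Fin N × Fin k, if e p = i then (h.1 p.1 + h'.1 p.1) else 0) =
        (∑ p : Fin N × Fin k, if e p = i then h.1 p.1 else 0) +
        ∑ p : Fin N × Fin k, if e p = i then h'.1 p.1 else 0
      rw [← Finset.sum_add_distrib]
      refine Finset.sum_congr rfl fun p _ => ?_
      split_ifs
      · rfl
      · rw [add_zero]
    · show (∑ p : Fin N × Fin k, if e p = i then (h.2.1 p.1 + h'.2.1 p.1) else 0) =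
        (∑ p : Fin N × Fin k, if e p = i then h.2.1 p.1 else 0) +
        ∑ p : Fin N × Fin k, if e p = i then h'.2.1 p.1 else 0
      rw [← Finset.sum_add_distrib]
      refine Finset.sum_congr rfl fun p _ => ?_
      split_ifs
      · rfl
      · rw [add_zero]
    · show (∑ u : Fin N, if f u = i then (h.2.2 u + h'.2.2 u) else 0) =
        (∑ u : Fin N, if f u = i then h.2.2 u else 0) +
        ∑ u : Fin N, if f u = i then h'.2.2 u else 0
      rw [← Finset.sum_add_distrib]
      refine Finset.sum_congr rfl fun p _ => ?_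
      split_ifs
      · rfl
      · rw [add_zero]

theorem iota_row (e : Fin N × Fin k ↪ Fin n) (f : Fin N → Fin m) (h : GA N)
    (p : Fin N × Fin k) : (iota e f h).1 (e p) = h.1 p.1 := by
  show (∑ q : Fin N × Fin k, if e q = e p then h.1 q.1 else 0) = _
  rw [Finset.sum_eq_single p]
  · rw [if_pos rfl]
  · intro q _ hq
    exact if_neg fun h => hq (e.injective h)
  · intro h
    exact absurd (mem_univ _) h

theorem iota_col (e : Fin N × Fin k ↪ Fin n) (f : Fin N → Fin m) (h : GA N)
    (p : Fin N × Fin k) : (iota e f h).2.1 (e p) = h.2.1 p.1 := by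
  show (∑ q : Fin N × Fin k, if e q = e p then h.2.1 q.1 else 0) = _
  rw [Finset.sum_eq_single p]
  · rw [if_pos rfl]
  · intro q _ hq
    exact if_neg fun h => hq (e.injective h)
  · intro h
    exact absurd (mem_univ _) h

theorem iota_var (e : Fin N × Fin k → Fin n) (f : Fin N ↪ Fin m) (h : GA N)
    (u : Fin N) : (iota e f h).2.2 (f u) = h.2.2 u := by
  show (∑ q : Fin N, if f q = f u then h.2.2 q else 0) = _
  rw [Finset.sum_eq_single u]
  · rw [if_pos rfl]
  · intro q _ hq
    exact if_neg fun h => hq (f.injective h)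
  · intro h
    exact absurd (mem_univ _) h

/-- the hard tuples -/
def hard (e : Fin N × Fin k ↪ Fin n) (f : Fin N ↪ Fin m) (w : WR N) (t : SL N → ZMod 2) :
    Tup n m :=
  fun v => Matrix.of fun i j => ∑ q : SL N × Fin k,
    if f (vr w q.1) = v ∧ e (q.1.1, q.2) = i ∧ e (cl q.1, q.2) = j then sg (t q.1) else 0

variable (e : Fin N × Fin k ↪ Fin n) (f : Fin N ↪ Fin m)

theorem hard_equi (w : WR N) (t : SL N → ZMod 2) (h : GA N) :
    hard e f w (t + BW w h) = flip (iota e f h) (hard e f w t) := by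
  funext v
  refine Matrix.ext fun i j => ?_
  rw [flip_apply]
  show (∑ q : SL N × Fin k, if f (vr w q.1) = v ∧ e (q.1.1, q.2) = i ∧ e (cl q.1, q.2) = j
    then sg ((t + BW w h) q.1) else 0) = _ * ∑ q : SL N × Fin k,
    if f (vr w q.1) = v ∧ e (q.1.1, q.2) = i ∧ e (cl q.1, q.2) = j then sg (t q.1) else 0
  rw [Finset.mul_sum]
  refine Finset.sum_congr rfl fun q _ => ?_
  by_cases hq : f (vr w q.1) = v ∧ e (q.1.1, q.2) = i ∧ e (cl q.1, q.2) = j
  · rw [if_pos hq, if_pos hq, ← sg_add]
    obtain ⟨h1, h2, h3⟩ := hq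
    congr 1
    rw [← h1, ← h2, ← h3, iota_row, iota_col, iota_var]
    show t q.1 + (h.1 q.1.1 + h.2.1 (cl q.1) + h.2.2 (vr w q.1)) = _
    ring
  · rw [if_neg hq, if_neg hq, mul_zero]

/-- the places seen by some slices -/
theorem card_J (w : WR N) (R C : Finset (Fin n)) (V : Finset (Fin m)) :
    ∃ J : Finset (SL N), J.card ≤ 2 * (R.card + C.card + V.card) ∧
      ∀ t t' : SL N → ZMod 2, (∀ s ∈ J, t s = t' s) → ∀ v i j, i ∈ R ∨ j ∈ C ∨ v ∈ V →
        hard e f w t v i j = hard e f w t' v i j := by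
  classical
  let JR : Fin n → Finset (SL N) := fun i => univ.filter fun s => ∃ a, e (s.1, a) = i
  let JC : Fin n → Finset (SL N) := fun j => univ.filter fun s => ∃ a, e (cl s, a) = j
  let JV : Fin m → Finset (SL N) := fun v => univ.filter fun s => f (vr w s) = v
  have hbool : ∀ F : Finset (SL N), (∀ s ∈ F, ∀ s' ∈ F, s.2 = s'.2 → s = s') → F.card ≤ 2 := by
    intro F hF
    have h1 := Finset.card_le_card_of_injOn (s := F) (t := (univ : Finset Bool)) Prod.snd
      (fun s _ => Finset.mem_coe.mpr (mem_univ _)) (fun s hs s' hs' h => hF s hs s' hs' h)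
    rwa [Finset.card_univ, Fintype.card_bool] at h1
  have hJR : ∀ i, (JR i).card ≤ 2 := by
    intro i
    refine hbool _ fun s hs s' hs' h => ?_
    obtain ⟨a, ha⟩ := (Finset.mem_filter.mp hs).2
    obtain ⟨a', ha'⟩ := (Finset.mem_filter.mp hs').2
    have h1 := congrArg Prod.fst (e.injective (ha.trans ha'.symm))
    exact Prod.ext h1 h
  have hJC : ∀ i, (JC i).card ≤ 2 := by
    intro i
    refine hbool _ fun s hs s' hs' h => ?_
    obtain ⟨a, ha⟩ := (Finset.mem_filter.mp hs).2
    obtain ⟨a', ha'⟩ := (Finset.mem_filter.mp hs').2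
    have h1 : cl s = cl s' := congrArg Prod.fst (e.injective (ha.trans ha'.symm))
    obtain ⟨s1, s2⟩ := s
    obtain ⟨s1', s2'⟩ := s'
    have h2 : s2 = s2' := h
    subst h2
    rcases s2 with _ | _
    · have h3 : s1 + 1 = s1' + 1 := h1
      rw [add_right_cancel h3]
    · have h3 : s1 = s1' := h1
      rw [h3]
  have hJV : ∀ i, (JV i).card ≤ 2 := by
    intro i
    refine hbool _ fun s hs s' hs' h => ?_
    have h1 : vr w s = vr w s' := f.injective
      ((Finset.mem_filter.mp hs).2.trans (Finset.mem_filter.mp hs').2.symm)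
    obtain ⟨s1, s2⟩ := s
    obtain ⟨s1', s2'⟩ := s'
    have h2 : s2 = s2' := h
    subst h2
    rcases s2 with _ | _
    · have h3 : w.1.symm s1 = w.1.symm s1' := h1
      rw [w.1.symm.injective h3]
    · have h3 : w.2.symm s1 = w.2.symm s1' := h1
      rw [w.2.symm.injective h3]
  refine ⟨(R.biUnion JR ∪ C.biUnion JC) ∪ V.biUnion JV, ?_, ?_⟩
  · have h1 := Finset.card_union_le (R.biUnion JR ∪ C.biUnion JC) (V.biUnion JV)
    have h2 := Finset.card_union_le (R.biUnion JR) (C.biUnion JC)
    have h3 := Finset.card_biUnion_le_card_mul R JR 2 fun i _ => hJR i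
    have h4 := Finset.card_biUnion_le_card_mul C JC 2 fun i _ => hJC i
    have h5 := Finset.card_biUnion_le_card_mul V JV 2 fun i _ => hJV i
    omega
  · intro t t' htt v i j hij
    show (∑ q : SL N × Fin k, if f (vr w q.1) = v ∧ e (q.1.1, q.2) = i ∧ e (cl q.1, q.2) = j
      then sg (t q.1) else 0) = ∑ q : SL N × Fin k,
      if f (vr w q.1) = v ∧ e (q.1.1, q.2) = i ∧ e (cl q.1, q.2) = j then sg (t' q.1) else 0
    refine Finset.sum_congr rfl fun q _ => ?_
    by_cases hq : f (vr w q.1) = v ∧ e (q.1.1, q.2) = i ∧ e (cl q.1, q.2) = j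
    · rw [if_pos hq, if_pos hq, htt]
      rcases hij with h | h | h
      · exact Finset.mem_union_left _ (Finset.mem_union_left _ (Finset.mem_biUnion.mpr
          ⟨i, h, Finset.mem_filter.mpr ⟨mem_univ _, q.2, hq.2.1⟩⟩))
      · exact Finset.mem_union_left _ (Finset.mem_union_right _ (Finset.mem_biUnion.mpr
          ⟨j, h, Finset.mem_filter.mpr ⟨mem_univ _, q.2, hq.2.2⟩⟩))
      · exact Finset.mem_union_right _ (Finset.mem_biUnion.mpr
          ⟨v, h, Finset.mem_filter.mpr ⟨mem_univ _, hq.1⟩⟩)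
    · rw [if_neg hq, if_neg hq]

/-- local functions have low degree -/
theorem local_low {K : Type} [Field K] (h2 : (2 : K) ≠ 0) (w : WR N) (d : ℕ)
    (g : Tup n m → K) (hg : g ∈ Local K n m d) :
    (fun t => g (hard e f w t)) ∈ Sp K {l : SL N → ZMod 2 | wt l ≤ 2 * d} := by
  classical
  refine Submodule.span_induction
    (p := fun g _ => (fun t => g (hard e f w t)) ∈
      Sp K {l : SL N → ZMod 2 | wt l ≤ 2 * d}) ?_ ?_ ?_ ?_ hg
  · rintro g ⟨R, C, V, hRC, hg⟩
    obtain ⟨J, hJ, hJ'⟩ := card_J e f w R C V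
    refine Sp_mono (fun l hl => (wt_le_of_supp l J hl).trans (hJ.trans
      (Nat.mul_le_mul_left 2 hRC))) (junta h2 _ J ?_)
    intro t t' htt
    exact hg _ _ fun v i j hij => hJ' t t' htt v i j hij
  · exact Submodule.zero_mem _
  · intro f g _ _ h3 h4
    exact Submodule.add_mem _ h3 h4
  · intro c f _ h3
    exact Submodule.smul_mem _ c h3

end Pool.Agent.TH658.Sd
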