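import Pool.Agent.TH658.Sd.Rank

set_option autoImplicit false
set_option linter.unusedSectionVars false

/-! Programs of equivariant gates for symbolic determinants. -/

namespace Pool.Agent.TH658.Sd

open Finset Pool.Agent.H30R2.PS Pool.Agent.TH658.Eq

section defs

variable {n m s : ℕ} {V : Type}

/-- The functions which the `j`-th gate may use as entries of its matrices: linear combinations
of functions of at most `d` slices of `A` and of functions of the value of one previous gate. -/
def Usable (K : Type) [Field K] (d : ℕ) (v : Fin s → Tup n m → V) (j : Fin s) :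
    Submodule K (Tup n m → K) :=
  Local K n m d ⊔ Submodule.span K {g | ∃ i, i < j ∧ ∃ φ : V → K, g = fun A => φ (v i A)}

/-- square matrices -/
abbrev Mat (K : Type) (r : ℕ) := Matrix (Fin r) (Fin r) K

/-- invertible matrices -/
abbrev Inv (K : Type) [Field K] (r : ℕ) := (Mat K r)ˣ

/-- `move` for matrices indexed by `Fin r` -/
def mv {K : Type} [Field K] {r : ℕ} (σ : K →+* K) (c : Bool × Bool) (q : Inv K r)
    (M : Mat K r) : Mat K r := move σ c q M

/-- The entries of the matrices `M x y` are functions of `x` in `U`. -/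
def EntriesIn {X Y K : Type} [Field K] {r : ℕ} (U : Submodule K (X → K))
    (M : X → Y → Mat K r) : Prop := ∀ y i j, (fun x => M x y i j) ∈ U

/-- `ρ` is a linear representation of `H`. -/
def IsRep {K : Type} [Field K] {r : ℕ} (H : AddSubgroup (Flips n m)) (ρ : H → Inv K r) : Prop :=
  ∀ g h, ρ (g + h) = ρ g * ρ h

/-- The sign changes in `H` act on the matrices by the changes of basis `ρ h`. -/
def IsEquivariant {X Y K : Type} [Field K] {r : ℕ} (act : Flips n m → X → X)
    (H : AddSubgroup (Flips n m)) (σ : K →+* K) (c : Y → Bool × Bool) (M : X → Y → Mat K r)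
    (ρ : H → Inv K r) : Prop :=
  ∀ (h : H) (x : X) (y : Y), M (act h.1 x) y = mv σ (c y) (ρ h) (M x y)

/-- `v x` depends only on the matrices `M x y` up to a change of basis. -/
def IsClassFunction {X Y K : Type} [Field K] {r : ℕ} (σ : K →+* K) (c : Y → Bool × Bool)
    (M : X → Y → Mat K r) (v : X → V) : Prop :=
  ∀ x x', (∃ q : Inv K r, ∀ y, M x' y = mv σ (c y) q (M x y)) → v x = v x'

/-- A gate computing a function of the isomorphism class of an `r`-dimensional vector space with
endomorphisms and sesquilinear forms `M x y`, on which the sign changes in `H` act by a linear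
representation `ρ`. The inputs are in `X`, where the sign changes act by `act`. -/
def ClassGate {X : Type} (act : Flips n m → X → X) (K : Type) [Field K]
    (H : AddSubgroup (Flips n m)) (r : ℕ) (U : Submodule K (X → K)) (v : X → V) : Prop :=
  ∃ (Y : Type) (σ : K →+* K) (c : Y → Bool × Bool) (M : X → Y → Mat K r) (ρ : H → Inv K r),
    EntriesIn U M ∧ IsRep H ρ ∧ IsEquivariant act H σ c M ρ ∧ IsClassFunction σ c M v

/-- Each sign change in `H` acts on the matrices by some conjugation. -/
def IsConjugated {X Y K : Type} [Field K] {r : ℕ} (act : Flips n m → X → X)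
    (H : AddSubgroup (Flips n m)) (M : X → Y → Mat K r) : Prop :=
  ∀ h ∈ H, ∃ q : Inv K r, ∀ (x : X) (y : Y), M (act h x) y = q.1 * M x y * q⁻¹.1

/-- `v x` depends only on the traces of the products of the matrices `M x y`. -/
def IsTraceFunction {X Y K : Type} [Field K] {r : ℕ} (M : X → Y → Mat K r) (v : X → V) : Prop :=
  ∀ x x', (∀ l : List Y, ((l.map (M x)).prod).trace = ((l.map (M x')).prod).trace) →
    v x = v x'

/-- A gate computing a function of the traces of the products of `r × r` matrices `M x y`, such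
that each sign change in `H` acts on them by some conjugation. -/
def TraceGate {X : Type} (act : Flips n m → X → X) (K : Type) [Field K]
    (H : AddSubgroup (Flips n m)) (r : ℕ) (U : Submodule K (X → K)) (v : X → V) : Prop :=
  ∃ (Y : Type) (M : X → Y → Mat K r),
    EntriesIn U M ∧ IsConjugated act H M ∧ IsTraceFunction M v

/-- `v` is a program with groups `H j`, dimensions `r j` and costs `r j ^ p j * [Γ : H j]`. -/
def IsProgram (d : ℕ) (v : Fin s → Tup n m → V) (H : Fin s → AddSubgroup (Flips n m))
    (r p : Fin s → ℕ) : Prop :=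
  ∀ j, 0 < r j ∧ ∃ (K : Type) (_ : Field K), (2 : K) ≠ 0 ∧
    ((p j = 2 ∧ ClassGate flip K (H j) (r j) (Usable K d v j) (v j)) ∨
     (p j = 4 ∧ TraceGate flip K (H j) (r j) (Usable K d v j) (v j)))

end defs

variable {n m N k s : ℕ} {V : Type}

/-- the main bound for programs -/
theorem program_bound {d : ℕ} (hk : k * N ≤ n) (hm : N ≤ m) (hd : 16 * d ≤ N) (hN : 2 ≤ N)
    (v : Fin s → Tup n m → V) (H : Fin s → AddSubgroup (Flips n m)) (r p : Fin s → ℕ)
    (hp : IsProgram d v H r p) (j0 : Fin s)
    (hsep : ∀ A B : Tup n m, Sparse k A → Sparse k B → k * N ≤ symRank A →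
      symRank B ≤ k * (N - 1) → v j0 A ≠ v j0 B) :
    2 ^ (N / 8) ≤ ∑ j, r j ^ p j * (H j).index := by
  classical
  have : NeZero N := ⟨by omega⟩
  have hc1 : Fintype.card (Fin N × Fin k) ≤ Fintype.card (Fin n) := by
    rw [Fintype.card_prod, Fintype.card_fin, Fintype.card_fin, Fintype.card_fin, mul_comm]
    exact hk
  have hc2 : Fintype.card (Fin N) ≤ Fintype.card (Fin m) := by
    rw [Fintype.card_fin, Fintype.card_fin]
    exact hm
  obtain ⟨e⟩ := Function.Embedding.nonempty_of_card_le hc1
  obtain ⟨f⟩ := Function.Embedding.nonempty_of_card_le hc2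
  let act : GA N → Tup n m → Tup n m := fun h A => flip (iota e f h) A
  have hact0 : ∀ x, act 0 x = x := fun x => by
    show flip (iota e f 0) x = x
    rw [map_zero, flip_zero]
  have hact : ∀ h h' x, act (h + h') x = act h (act h' x) := fun h h' x => by
    show flip (iota e f (h + h')) x = flip (iota e f h) (flip (iota e f h') x)
    rw [map_add, flip_add]
  let H' : Fin s → Submodule (ZMod 2) (GA N) := fun j =>
    AddSubgroup.toZModSubmodule 2 ((H j).comap (iota e f))
  have hidx : ∀ j, (H' j).toAddSubgroup.index ≤ (H j).index := by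
    intro j
    have h1 : (H' j).toAddSubgroup = (H j).comap (iota e f) := rfl
    rw [h1, AddSubgroup.index_comap, ← AddSubgroup.relIndex_top_right]
    exact AddSubgroup.relIndex_le_of_le_right le_top (by
      rw [AddSubgroup.relIndex_top_right]
      exact AddSubgroup.index_ne_zero_of_finite)
  choose hr Kf iK h2 hg using hp
  have hgate : ∀ j, ∃ C : Finset (Chr (H' j)), C.Nonempty ∧ C.card ^ 2 ≤ r j ^ p j ∧
      ∃ E : Set (Tup n m → Kf j), (∀ f ∈ E, f ∈ Usable (Kf j) d v j) ∧
        InvG (SL N) act (H' j) C E (v j) := by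
    intro j
    have : Nonempty (Fin (r j)) := ⟨⟨0, hr j⟩⟩
    rcases hg j with ⟨hpj, Y, σ, c, M, ρ, hM, hρ, hsym, hcl⟩ | ⟨hpj, Y, M, hM, hsym, hcl⟩
    · let ρ' : H' j → (Matrix (Fin (r j)) (Fin (r j)) (Kf j))ˣ := fun h =>
        ρ ⟨iota e f h.1, h.2⟩
      obtain ⟨C, hC, hC', hv⟩ := inv_classG (V := V) (S := SL N) (h2 j) σ c act (H' j) M ρ' (by
        intro h h'
        have h3 : (⟨iota e f (h + h').1, (h + h').2⟩ : H j) =
            (⟨iota e f h.1, h.2⟩ : H j) + (⟨iota e f h'.1, h'.2⟩ : H j) :=
          Subtype.ext (map_add (iota e f) h.1 h'.1)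
        show ρ _ = ρ _ * ρ _
        rw [h3, hρ]) (fun h x y =>
          hsym ⟨iota e f h.1, h.2⟩ x y)
      refine ⟨C, hC, ?_, _, ?_, hv (v j) (fun x x' hq => hcl x x' hq)⟩
      · rw [hpj]
        refine Nat.pow_le_pow_left (hC'.trans (le_of_eq (Fintype.card_fin _))) 2
      · rintro g ⟨y, i, i', rfl⟩
        exact hM y i i'
    · obtain ⟨C, hC, hC', hv⟩ := inv_wordsG (V := V) (S := SL N) (h2 j) act hact0 hact (H' j) M
        (fun h hh => hsym (iota e f h) hh)
      refine ⟨C, hC, ?_, _, ?_, hv (v j) (fun x x' hq => hcl x x' hq)⟩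
      · rw [hpj]
        have h3 : C.card ≤ r j ^ 2 := hC'.trans (le_of_eq (by rw [Fintype.card_fin]))
        calc C.card ^ 2 ≤ (r j ^ 2) ^ 2 := Nat.pow_le_pow_left h3 2
          _ = r j ^ 4 := by rw [← pow_mul]
      · rintro g ⟨y, i, i', rfl⟩
        exact hM y i i'
  choose C hC hC' E hE hv using hgate
  obtain ⟨ε, hε, hrank⟩ := rank_hard (k := k) e f hN
  have h8 : 8 * (N / 8) ≤ N := Nat.mul_div_le N 8
  have hmain := engineG act (hard e f) (fun w t h => hard_equi e f w t h) H' C hC Kf iK h2 E v hv
    (N / 8) h8 (fun j => Local (Kf j) n m d) (fun j w g hg' =>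
      Sp_mono (fun l (hl : wt l ≤ 2 * d) => hl.trans (by omega))
        (local_low e f (h2 j) w d g hg')) hE j0 (by
      intro w t t' htt
      have hchi : ∀ t : SL N → ZMod 2, chi t = 1 ∨ chi t = -1 := fun t => by
        rw [chi_eq_sg]
        exact sg_pm _
      have hs := sparse_hard e f hN w t
      have hs' := sparse_hard e f hN w t'
      have h3 : chi t = ε ∨ chi t = -ε := by
        rcases hchi t with h | h <;> rcases hε with h' | h' <;> rw [h, h'] <;> decide
      have h4 : chi t' = ε ∨ chi t' = -ε := by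
        rcases hchi t' with h | h <;> rcases hε with h' | h' <;> rw [h, h'] <;> decide
      rcases h3 with h3 | h3
      · rcases h4 with h4 | h4
        · exact absurd (h3.trans h4.symm) htt
        · exact hsep _ _ hs hs' ((hrank w t).1 h3) ((hrank w t').2 h4)
      · rcases h4 with h4 | h4
        · exact (hsep _ _ hs' hs ((hrank w t').1 h4) ((hrank w t).2 h3)).symm
        · exact absurd (h3.trans h4.symm) htt)
  refine hmain.trans (Finset.sum_le_sum fun j _ => ?_)
  exact Nat.mul_le_mul (hC' j) (hidx j)

end Pool.Agent.TH658.Sd
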