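import Pool.Agent.TH658.Sd.Inp

set_option autoImplicit false
set_option linter.unusedSectionVars false

/-! The symbolic ranks of the hard tuples. -/

namespace Pool.Agent.TH658.Sd

open Finset Pool.Agent.H30R2.PS Pool.Agent.TH658.Eq

variable {n m N k : ℕ} [NeZero N] (e : Fin N × Fin k ↪ Fin n) (f : Fin N ↪ Fin m)

/-- the field of rational functions -/
abbrev RF (m : ℕ) := FractionRing (MvPolynomial (Fin m) ℚ)

/-- a variable as a rational function -/
noncomputable def xv (m : ℕ) (v : Fin m) : RF m := algebraMap _ _ (MvPolynomial.X v : MvPolynomial (Fin m) ℚ)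

theorem xv_ne (m : ℕ) (v : Fin m) : xv m v ≠ 0 := by
  unfold xv
  rw [Ne, FaithfulSMul.algebraMap_eq_zero_iff]
  exact MvPolynomial.X_ne_zero v

/-- the symbolic matrix of a hard tuple -/
theorem symb_hard (w : WR N) (t : SL N → ZMod 2) :
    (symb (hard e f w t)).map (algebraMap _ (RF m)) =
      copies e (cyc (fun i => ((sg (t (i, true)) : ℤ) : RF m) * xv m (f (w.2.symm i)))
        (fun i => ((sg (t (i, false)) : ℤ) : RF m) * xv m (f (w.1.symm i)))) := by
  classical
  refine Matrix.ext fun i j => ?_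
  rw [copies_apply]
  show algebraMap _ (RF m) (∑ v, MvPolynomial.C ((hard e f w t v i j : ℤ) : ℚ) *
    MvPolynomial.X v) = _
  rw [map_sum]
  have h1 : ∀ v : Fin m, algebraMap _ (RF m) (MvPolynomial.C ((hard e f w t v i j : ℤ) : ℚ) *
      MvPolynomial.X v) = ∑ q : SL N × Fin k,
      if f (vr w q.1) = v ∧ e (q.1.1, q.2) = i ∧ e (cl q.1, q.2) = j then
        ((sg (t q.1) : ℤ) : RF m) * xv m v else 0 := by
    intro v
    have h2 : (MvPolynomial.C ((hard e f w t v i j : ℤ) : ℚ) : MvPolynomial (Fin m) ℚ) =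
        ((hard e f w t v i j : ℤ) : MvPolynomial (Fin m) ℚ) := by
      exact map_intCast _ _
    rw [map_mul, h2, map_intCast]
    show ((∑ q : SL N × Fin k, if f (vr w q.1) = v ∧ e (q.1.1, q.2) = i ∧ e (cl q.1, q.2) = j
      then sg (t q.1) else 0 : ℤ) : RF m) * xv m v = _
    rw [Int.cast_sum, Finset.sum_mul]
    refine Finset.sum_congr rfl fun q _ => ?_
    by_cases hq : f (vr w q.1) = v ∧ e (q.1.1, q.2) = i ∧ e (cl q.1, q.2) = j
    · rw [if_pos hq, if_pos hq]
    · rw [if_neg hq, if_neg hq, Int.cast_zero, zero_mul]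
  rw [Finset.sum_congr rfl fun v _ => h1 v, Finset.sum_comm, Fintype.sum_prod_type,
    Finset.sum_comm]
  refine Finset.sum_congr rfl fun a _ => ?_
  rw [Fintype.sum_prod_type]
  refine Finset.sum_congr rfl fun p _ => ?_
  have h2 : ∀ b : Bool, (∑ v : Fin m, if f (vr w (p, b)) = v ∧ e (p, a) = i ∧
      e (cl (p, b), a) = j then ((sg (t (p, b)) : ℤ) : RF m) * xv m v else 0) =
      (if e (p, a) = i then 1 else 0) * (((sg (t (p, b)) : ℤ) : RF m) * xv m (f (vr w (p, b)))) *
      (if e (cl (p, b), a) = j then 1 else 0) := by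
    intro b
    rw [Finset.sum_eq_single (f (vr w (p, b)))]
    · by_cases h3 : e (p, a) = i
      · by_cases h4 : e (cl (p, b), a) = j
        · rw [if_pos ⟨rfl, h3, h4⟩, if_pos h3, if_pos h4, one_mul, mul_one]
        · rw [if_neg (fun h => h4 h.2.2), if_neg h4, mul_zero]
      · rw [if_neg (fun h => h3 h.2.1), if_neg h3, zero_mul, zero_mul]
    · intro v _ hv
      exact if_neg fun h => hv h.1.symm
    · intro h
      exact absurd (mem_univ _) h
  rw [Fintype.sum_bool, h2, h2]
  have h3 : ∀ q : Fin N, (if e (p, a) = i then (1 : RF m) else 0) *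
      cyc (fun i => ((sg (t (i, true)) : ℤ) : RF m) * xv m (f (w.2.symm i)))
        (fun i => ((sg (t (i, false)) : ℤ) : RF m) * xv m (f (w.1.symm i))) p q *
      (if e (q, a) = j then 1 else 0) =
      (if q = p then (if e (p, a) = i then (1 : RF m) else 0) *
        (((sg (t (p, true)) : ℤ) : RF m) * xv m (f (w.2.symm p))) *
        (if e (q, a) = j then 1 else 0) else 0) +
      (if q = p + 1 then (if e (p, a) = i then (1 : RF m) else 0) *
        (((sg (t (p, false)) : ℤ) : RF m) * xv m (f (w.1.symm p))) *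
        (if e (q, a) = j then 1 else 0) else 0) := by
    intro q
    show (if e (p, a) = i then (1 : RF m) else 0) *
      ((if q = p then ((sg (t (p, true)) : ℤ) : RF m) * xv m (f (w.2.symm p)) else 0) +
      (if q = p + 1 then ((sg (t (p, false)) : ℤ) : RF m) * xv m (f (w.1.symm p)) else 0)) *
      (if e (q, a) = j then 1 else 0) = _
    by_cases h4 : q = p
    · by_cases h5 : q = p + 1
      · rw [if_pos h4, if_pos h5, if_pos h4, if_pos h5]
        ring
      · rw [if_pos h4, if_neg h5, if_pos h4, if_neg h5]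
        ring
    · by_cases h5 : q = p + 1
      · rw [if_neg h4, if_pos h5, if_neg h4, if_pos h5]
        ring
      · rw [if_neg h4, if_neg h5, if_neg h4, if_neg h5]
        ring
  rw [Finset.sum_congr rfl fun q _ => h3 q, Finset.sum_add_distrib, Finset.sum_ite_eq' univ p,
    Finset.sum_ite_eq' univ (p + 1), if_pos (mem_univ _), if_pos (mem_univ _)]
  rfl

/-- the determinant of a block -/
theorem det_block (hN : 2 ≤ N) (w : WR N) (t : SL N → ZMod 2) :
    (cyc (fun i => ((sg (t (i, true)) : ℤ) : RF m) * xv m (f (w.2.symm i)))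
        (fun i => ((sg (t (i, false)) : ℤ) : RF m) * xv m (f (w.1.symm i)))).det =
      ((∏ i, sg (t (i, true)) + (Equiv.Perm.sign (Equiv.addRight (1 : Fin N)) : ℤ) *
        ∏ i, sg (t (i, false)) : ℤ) : RF m) * ∏ v, xv m (f v) := by
  rw [det_cyc hN, Finset.prod_mul_distrib, Finset.prod_mul_distrib,
    Equiv.prod_comp w.2.symm (fun v => xv m (f v)), Equiv.prod_comp w.1.symm (fun v => xv m (f v))]
  push_cast
  ring

theorem sg_pm (x : ZMod 2) : sg x = 1 ∨ sg x = -1 := by
  revert x
  decide

theorem prod_pm {α : Type} (F : Finset α) (g : α → ZMod 2) :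
    ∏ i ∈ F, sg (g i) = 1 ∨ ∏ i ∈ F, sg (g i) = -1 := by
  classical
  induction F using Finset.induction_on with
  | empty => exact Or.inl Finset.prod_empty
  | insert a F ha ih =>
    rw [Finset.prod_insert ha]
    rcases sg_pm (g a) with h | h <;> rcases ih with h' | h' <;> rw [h, h'] <;> decide

/-- the rank of the hard tuples depends on the parity -/
theorem rank_hard (hN : 2 ≤ N) : ∃ ε : ℤ, (ε = 1 ∨ ε = -1) ∧ ∀ (w : WR N) (t : SL N → ZMod 2),
    (chi t = ε → k * N ≤ symRank (hard e f w t)) ∧
    (chi t = -ε → symRank (hard e f w t) ≤ k * (N - 1)) := by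
  refine ⟨(Equiv.Perm.sign (Equiv.addRight (1 : Fin N)) : ℤ), ?_, fun w t => ?_⟩
  · rcases Int.units_eq_one_or (Equiv.Perm.sign (Equiv.addRight (1 : Fin N))) with h | h
    · left
      rw [h]
      rfl
    · right
      rw [h]
      rfl
  · have hchi : chi t = (∏ i, sg (t (i, true))) * ∏ i, sg (t (i, false)) := by
      unfold chi
      rw [Fintype.prod_prod_type, ← Finset.prod_mul_distrib]
      refine Finset.prod_congr rfl fun i _ => ?_
      rw [Fintype.prod_bool]
    have h1 := prod_pm univ (fun i : Fin N => t (i, true))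
    have h2 := prod_pm univ (fun i : Fin N => t (i, false))
    have h3 := det_block (m := m) f hN w t
    have h4 := symb_hard e f w t
    have h5 : symRank (hard e f w t) = (copies e (cyc
        (fun i => ((sg (t (i, true)) : ℤ) : RF m) * xv m (f (w.2.symm i)))
        (fun i => ((sg (t (i, false)) : ℤ) : RF m) * xv m (f (w.1.symm i))))).rank := by
      unfold symRank
      rw [h4]
    have h6 : ∏ v, xv m (f v) ≠ 0 := Finset.prod_ne_zero_iff.mpr fun v _ => xv_ne m _
    constructor
    · intro hc
      rw [h5]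
      refine rank_copies_ge e _ ?_
      rw [h3]
      refine mul_ne_zero ?_ h6
      rw [Int.cast_ne_zero, ← hc, hchi]
      rcases h1 with h1 | h1 <;> rcases h2 with h2 | h2 <;> rw [h1, h2] <;> decide
    · intro hc
      rw [h5]
      refine rank_copies_le e _ ?_
      have h7 : (Equiv.Perm.sign (Equiv.addRight (1 : Fin N)) : ℤ) = - chi t := by
        rw [hc, neg_neg]
      rw [h3, h7, hchi]
      rcases h1 with h1 | h1 <;> rcases h2 with h2 | h2 <;> rw [h1, h2] <;> norm_num

/-- the hard tuples are sparse -/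
theorem sparse_hard (hN : 2 ≤ N) (w : WR N) (t : SL N → ZMod 2) :
    Sparse k (hard e f w t) := by
  classical
  have hne : ∀ v i j, hard e f w t v i j ≠ 0 → ∃ q : SL N × Fin k,
      f (vr w q.1) = v ∧ e (q.1.1, q.2) = i ∧ e (cl q.1, q.2) = j := by
    intro v i j h
    by_contra hn
    refine h ?_
    show (∑ q : SL N × Fin k, if f (vr w q.1) = v ∧ e (q.1.1, q.2) = i ∧ e (cl q.1, q.2) = j
      then sg (t q.1) else 0) = 0
    exact Finset.sum_eq_zero fun q _ => if_neg fun hq => hn ⟨q, hq⟩
  have hrow : ∀ q q' : SL N × Fin k, e (q.1.1, q.2) = e (q'.1.1, q'.2) → q.1.2 = q'.1.2 →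
      q = q' := by
    rintro ⟨⟨p, b⟩, a⟩ ⟨⟨p', b'⟩, a'⟩ h h'
    have h1 := e.injective h
    have h2 : p = p' := congrArg Prod.fst h1
    have h3 : a = a' := congrArg Prod.snd h1
    have h4 : b = b' := h'
    rw [h2, h3, h4]
  have hcol : ∀ q q' : SL N × Fin k, e (cl q.1, q.2) = e (cl q'.1, q'.2) → q.1.2 = q'.1.2 →
      q = q' := by
    rintro ⟨⟨p, b⟩, a⟩ ⟨⟨p', b'⟩, a'⟩ h h'
    have h1 := e.injective h
    have h2 : cl (p, b) = cl (p', b') := congrArg Prod.fst h1
    have h3 : a = a' := congrArg Prod.snd h1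
    have h4 : b = b' := h'
    subst h4
    subst h3
    rcases b with _ | _
    · have h5 : p + 1 = p' + 1 := h2
      rw [add_right_cancel h5]
    · have h5 : p = p' := h2
      rw [h5]
  have huniq : ∀ q q' : SL N × Fin k, e (q.1.1, q.2) = e (q'.1.1, q'.2) →
      e (cl q.1, q.2) = e (cl q'.1, q'.2) → q = q' := by
    rintro ⟨⟨p, b⟩, a⟩ ⟨⟨p', b'⟩, a'⟩ h h'
    have h1 := e.injective h
    have h2 : p = p' := congrArg Prod.fst h1
    have h3 : a = a' := congrArg Prod.snd h1
    have h4 : cl (p, b) = cl (p', b') := congrArg Prod.fst (e.injective h')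
    subst h2
    subst h3
    rcases b with _ | _ <;> rcases b' with _ | _
    · rfl
    · exact absurd h4 (add_one_ne hN p)
    · exact absurd h4.symm (add_one_ne hN p)
    · rfl
  have hbool : ∀ F : Finset (SL N × Fin k), (∀ s ∈ F, ∀ s' ∈ F, s.1.2 = s'.1.2 → s = s') →
      F.card ≤ 2 := by
    intro F hF
    have h1 := Finset.card_le_card_of_injOn (s := F) (t := (univ : Finset Bool))
      (fun q => q.1.2)
      (fun s _ => Finset.mem_coe.mpr (mem_univ _)) (fun s hs s' hs' h => hF s hs s' hs' h)
    rwa [Finset.card_univ, Fintype.card_bool] at h1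
  refine ⟨?_, ?_, ?_, ?_⟩
  · intro v i j
    by_cases h : hard e f w t v i j = 0
    · exact Or.inl h
    · right
      obtain ⟨q, hq⟩ := hne v i j h
      have h1 : hard e f w t v i j = sg (t q.1) := by
        show (∑ q : SL N × Fin k, if f (vr w q.1) = v ∧ e (q.1.1, q.2) = i ∧
          e (cl q.1, q.2) = j then sg (t q.1) else 0) = _
        rw [Finset.sum_eq_single q]
        · exact if_pos hq
        · intro q' _ hq'
          refine if_neg fun h => hq' ?_
          exact huniq q' q (h.2.1.trans hq.2.1.symm) (h.2.2.trans hq.2.2.symm)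
        · intro h
          exact absurd (mem_univ _) h
      rw [h1]
      exact sg_pm _
  · intro i
    have h1 : (univ.filter fun p : Fin m × Fin n => hard e f w t p.1 i p.2 ≠ 0) ⊆
        (univ.filter fun q : SL N × Fin k => e (q.1.1, q.2) = i).image
          (fun q => (f (vr w q.1), e (cl q.1, q.2))) := by
      intro p hp
      obtain ⟨q, hq⟩ := hne _ _ _ (Finset.mem_filter.mp hp).2
      exact Finset.mem_image.mpr ⟨q, Finset.mem_filter.mpr ⟨mem_univ _, hq.2.1⟩,
        Prod.ext hq.1 hq.2.2⟩
    refine (Finset.card_le_card h1).trans (Finset.card_image_le.trans (hbool _ ?_))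
    intro q hq q' hq' h
    exact hrow q q' ((Finset.mem_filter.mp hq).2.trans (Finset.mem_filter.mp hq').2.symm) h
  · intro j
    have h1 : (univ.filter fun p : Fin m × Fin n => hard e f w t p.1 p.2 j ≠ 0) ⊆
        (univ.filter fun q : SL N × Fin k => e (cl q.1, q.2) = j).image
          (fun q => (f (vr w q.1), e (q.1.1, q.2))) := by
      intro p hp
      obtain ⟨q, hq⟩ := hne _ _ _ (Finset.mem_filter.mp hp).2
      exact Finset.mem_image.mpr ⟨q, Finset.mem_filter.mpr ⟨mem_univ _, hq.2.2⟩,
        Prod.ext hq.1 hq.2.1⟩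
    refine (Finset.card_le_card h1).trans (Finset.card_image_le.trans (hbool _ ?_))
    intro q hq q' hq' h
    exact hcol q q' ((Finset.mem_filter.mp hq).2.trans (Finset.mem_filter.mp hq').2.symm) h
  · intro v
    have h1 : (univ.filter fun p : Fin n × Fin n => hard e f w t v p.1 p.2 ≠ 0) ⊆
        (univ.filter fun q : SL N × Fin k => f (vr w q.1) = v).image
          (fun q => (e (q.1.1, q.2), e (cl q.1, q.2))) := by
      intro p hp
      obtain ⟨q, hq⟩ := hne _ _ _ (Finset.mem_filter.mp hp).2
      exact Finset.mem_image.mpr ⟨q, Finset.mem_filter.mpr ⟨mem_univ _, hq.1⟩,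
        Prod.ext hq.2.1 hq.2.2⟩
    refine (Finset.card_le_card h1).trans (Finset.card_image_le.trans ?_)
    have h2 := Finset.card_le_card_of_injOn
      (s := univ.filter fun q : SL N × Fin k => f (vr w q.1) = v)
      (t := (univ : Finset (Bool × Fin k))) (fun q => (q.1.2, q.2))
      (fun s _ => Finset.mem_coe.mpr (mem_univ _)) (by
        rintro ⟨⟨p, b⟩, a⟩ hq ⟨⟨p', b'⟩, a'⟩ hq' h
        have h3 : b = b' := congrArg Prod.fst h
        have h4 : a = a' := congrArg Prod.snd h
        have h5 : vr w (p, b) = vr w (p', b') := f.injective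
          ((Finset.mem_filter.mp (Finset.mem_coe.mp hq)).2.trans
            (Finset.mem_filter.mp (Finset.mem_coe.mp hq')).2.symm)
        subst h3
        subst h4
        rcases b with _ | _
        · have h6 : w.1.symm p = w.1.symm p' := h5
          rw [w.1.symm.injective h6]
        · have h6 : w.2.symm p = w.2.symm p' := h5
          rw [w.2.symm.injective h6])
    rwa [Finset.card_univ, Fintype.card_prod, Fintype.card_bool, Fintype.card_fin] at h2

end Pool.Agent.TH658.Sd
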